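import Pool.Agent.Q296.PO.Stable

/-! The base cases (at most two free coordinates) and the main theorem. -/

set_option autoImplicit false

namespace Pool.Agent.Q296.PO

open Finset

variable {n : ℕ}

/-- widths grow along the free coordinates -/
def Srt (l a : Fin n → ℕ) : Prop :=
  ∀ i ∈ fr l a, ∀ j ∈ fr l a, i < j → a i + l j ≤ a j + l i

lemma eq_of_agree {l a x y : Fin n → ℕ} {q : ℕ} (hx : x ∈ P l a q) (hy : y ∈ P l a q) {i : Fin n}
    (h : ∀ k ∈ fr l a, k ≠ i → x k = y k) : x = y := by
  have hk : ∀ k, k ≠ i → x k = y k := by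
    intro k hki
    by_cases hf : k ∈ fr l a
    · exact h k hf hki
    · exact not_fr hx hy hf
  have hd : deg x = deg y := by rw [(mem_P.1 hx).2, (mem_P.1 hy).2]
  unfold deg at hd
  rw [← Finset.add_sum_erase univ x (mem_univ i), ← Finset.add_sum_erase univ y (mem_univ i)] at hd
  have hs : ∑ k ∈ univ.erase i, x k = ∑ k ∈ univ.erase i, y k :=
    Finset.sum_congr rfl (fun k hk' => hk k (Finset.ne_of_mem_erase hk'))
  funext k
  by_cases hki : k = i
  · subst hki; omega
  · exact hk k hki

lemma base1 {l a : Fin n → ℕ} {q : ℕ} (h : (P l a (q + 1)).card ≤ 1) : Thm l a q := by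
  classical
  intro A B hA hB
  have hcase : ∀ E : Finset (Fin n → ℕ), E ⊆ P l a (q + 1) → E = ∅ ∨
      (E = P l a (q + 1) ∧ E.card = 1) := by
    intro E hE
    rcases Finset.eq_empty_or_nonempty E with h1 | h1
    · exact Or.inl h1
    · right
      have h2 := Finset.card_pos.2 h1
      have h3 := card_le_card hE
      exact ⟨Finset.eq_of_subset_of_card_le hE (by omega), by omega⟩
  rcases hcase A hA with rfl | ⟨e1, e1'⟩ <;> rcases hcase B hB with rfl | ⟨e2, e2'⟩
  · simp
  · rw [card_empty, zero_add, sh_empty, card_empty, zero_add]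
    have : B.card - (P l a (q + 1)).card = 0 := by rw [← e2]; omega
    rw [this, seg_zero, sh_empty, card_empty, add_zero, seg_all _ (by rw [← e2]), ← e2]
  · rw [card_empty, add_zero, sh_empty, card_empty, add_zero]
    have : A.card - (P l a (q + 1)).card = 0 := by rw [← e1]; omega
    rw [this, seg_zero, sh_empty, card_empty, add_zero, seg_all _ (by rw [← e1]), ← e1]
  · rw [seg_all _ (by rw [e1', e2']; omega), seg_all _ (by rw [e1', e2', ← e1, e1']), ← e1]
    rw [e2, ← e1]

section two

variable {l a : Fin n → ℕ} {F L : Fin n}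

lemma deg_two (hfr : fr l a = {F, L}) (hFL : F < L) :
    ∃ R : ℕ, ∀ x : Fin n → ℕ, ∀ q, x ∈ P l a q → q = x F + x L + R := by
  classical
  refine ⟨∑ k ∈ (univ.erase F).erase L, l k, fun x q hx => ?_⟩
  have h1 : deg x = q := (mem_P.1 hx).2
  unfold deg at h1
  rw [← Finset.add_sum_erase univ x (mem_univ F),
    ← Finset.add_sum_erase (univ.erase F) x (mem_erase.2 ⟨ne_of_gt hFL, mem_univ L⟩)] at h1
  have h2 : ∑ k ∈ (univ.erase F).erase L, x k = ∑ k ∈ (univ.erase F).erase L, l k := by
    apply Finset.sum_congr rfl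
    intro k hk
    rw [mem_erase, mem_erase] at hk
    have h3 : k ∉ fr l a := by
      rw [hfr, mem_insert, mem_singleton]
      push Not
      exact ⟨hk.2.1, hk.1⟩
    rw [mem_fr] at h3
    have := (mem_P.1 hx).1 k
    omega
  rw [h2] at h1
  omega

lemma eqF (hfr : fr l a = {F, L}) {q : ℕ} {x y : Fin n → ℕ} (hx : x ∈ P l a q)
    (hy : y ∈ P l a q) (h : x F = y F) : x = y := by
  apply eq_of_agree hx hy (i := L)
  intro k hk hkL
  rw [hfr, mem_insert, mem_singleton] at hk
  rcases hk with rfl | rfl
  · exact h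
  · exact absurd rfl hkL

lemma eqL (hfr : fr l a = {F, L}) {q : ℕ} {x y : Fin n → ℕ} (hx : x ∈ P l a q)
    (hy : y ∈ P l a q) (h : x L = y L) : x = y := by
  apply eq_of_agree hx hy (i := F)
  intro k hk hkF
  rw [hfr, mem_insert, mem_singleton] at hk
  rcases hk with rfl | rfl
  · exact absurd rfl hkF
  · exact h

/-- upper bound for initial segments -/
lemma upI (hfr : fr l a = {F, L}) (hFL : F < L) {q : ℕ} {A : Finset (Fin n → ℕ)}
    (hI : Ini (P l a (q + 1)) A) :
    ((sh l a A).filter (fun u => u L < a L)).card ≤ A.card := by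
  classical
  have : (sh l a A).filter (fun u => u L < a L) ⊆ A.image (fun x => dn x L) := by
    intro u hu
    rw [mem_filter] at hu
    obtain ⟨hu, huL⟩ := hu
    have huP := sh_sub hI.1 hu
    rw [mem_sh] at hu
    obtain ⟨hu1, i, hi⟩ := hu
    rw [mem_image]
    have hif : i ∈ fr l a := by
      rw [mem_fr]
      have h1 := (mem_P.1 (hI.1 hi)).1 i
      rw [up_self] at h1
      have h2 := hu1 i
      omega
    rw [hfr, mem_insert, mem_singleton] at hif
    rcases hif with rfl | rfl
    · refine ⟨up u L, ?_, dn_up u L⟩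
      apply hI.2 _ hi _ (up_mem_P huP huL)
      refine (lx_iff _ _).2 ⟨i, fun k hk => ?_, ?_⟩
      · rw [up_ne _ (ne_of_lt (hk.trans hFL)), up_ne _ (ne_of_lt hk)]
      · rw [up_ne _ (ne_of_lt hFL), up_self]; omega
    · exact ⟨up u i, hi, dn_up u i⟩
  exact (card_le_card this).trans Finset.card_image_le

lemma upE (hfr : fr l a = {F, L}) (hFL : F < L) {q : ℕ} {A : Finset (Fin n → ℕ)}
    (hI : Ini (P l a (q + 1)) A) : (sh l a A).card ≤ A.card + (if A.card = 0 then 0 else 1) := by
  classical
  by_cases h0 : A.card = 0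
  · rw [Finset.card_eq_zero.1 h0, sh_empty]; simp
  · rw [if_neg h0]
    have e1 := Finset.card_filter_add_card_filter_not (s := sh l a A) (fun u => u L < a L)
    have e2 : ((sh l a A).filter (fun u => ¬ u L < a L)).card ≤ 1 := by
      rw [Finset.card_le_one]
      intro u hu v hv
      rw [mem_filter] at hu hv
      have h1 := sh_sub hI.1 hu.1
      have h2 := sh_sub hI.1 hv.1
      apply eqL hfr h1 h2
      have h3 := (mem_P.1 h1).1 L
      have h4 := (mem_P.1 h2).1 L
      omega
    have e3 := upI hfr hFL hI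
    omega

lemma upS (hfr : fr l a = {F, L}) (hFL : F < L) {q R : ℕ}
    (hR : ∀ x : Fin n → ℕ, ∀ q, x ∈ P l a q → q = x F + x L + R)
    (hq : q + 1 ≤ l F + a L + R) {A : Finset (Fin n → ℕ)}
    (hI : Ini (P l a (q + 1)) A) : (sh l a A).card ≤ A.card := by
  classical
  have e : (sh l a A).filter (fun u => u L < a L) = sh l a A := by
    rw [Finset.filter_eq_self]
    intro u hu
    have h1 := sh_sub hI.1 hu
    have h2 := hR u q h1
    have h3 := (mem_P.1 h1).1 F
    omega
  have := upI hfr hFL hI
  rwa [e] at this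

lemma lo1 {q R : ℕ} (hR : ∀ x : Fin n → ℕ, ∀ q, x ∈ P l a q → q = x F + x L + R)
    (hq : a F + l L + R < q + 1) {A : Finset (Fin n → ℕ)} (hA : A ⊆ P l a (q + 1)) :
    A.card ≤ (sh l a A).card := by
  classical
  have hpos : ∀ x ∈ A, l L < x L := by
    intro x hx
    have h1 := hR x _ (hA hx)
    have h2 := (mem_P.1 (hA hx)).1 F
    omega
  apply Finset.card_le_card_of_injOn (fun x => dn x L)
  · intro x hx
    exact dn_in hA hx (hpos x hx)
  · intro x hx y hy h
    have h1 := hpos x hx
    have h2 := hpos y hy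
    rw [← up_dn x (i := L) (by omega), ← up_dn y (i := L) (by omega)]
    simp only at h
    rw [h]

lemma lo2 (hFL : F < L) {q R : ℕ}
    (hR : ∀ x : Fin n → ℕ, ∀ q, x ∈ P l a q → q = x F + x L + R)
    (hq : a F + l L + R < q + 1) (hq' : l F + a L + R < q + 1) {A : Finset (Fin n → ℕ)}
    (hA : A ⊆ P l a (q + 1)) (hne : A.card ≠ 0) :
    A.card + 1 ≤ (sh l a A).card := by
  classical
  have hpos : ∀ x ∈ A, l L < x L := by
    intro x hx
    have h1 := hR x _ (hA hx)
    have h2 := (mem_P.1 (hA hx)).1 F
    omega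
  have hpos' : ∀ x ∈ A, l F < x F := by
    intro x hx
    have h1 := hR x _ (hA hx)
    have h2 := (mem_P.1 (hA hx)).1 L
    omega
  obtain ⟨x, hx, hmin⟩ := Finset.exists_min_image A (fun x => x F)
    (Finset.card_pos.1 (Nat.pos_of_ne_zero hne))
  have hnot : dn x F ∉ A.image (fun x => dn x L) := by
    intro h
    rw [mem_image] at h
    obtain ⟨z, hz, hzx⟩ := h
    have h1 := congrFun hzx F
    rw [dn_self, dn_ne _ (ne_of_lt hFL)] at h1
    have h2 := hmin z hz
    have h3 := hpos' x hx
    omega
  have hcard : (A.image (fun x => dn x L)).card = A.card := by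
    apply Finset.card_image_of_injOn
    intro x hx y hy h
    have h1 := hpos x hx
    have h2 := hpos y hy
    rw [← up_dn x (i := L) (by omega), ← up_dn y (i := L) (by omega)]
    simp only at h
    rw [h]
  rw [← hcard, ← Finset.card_insert_of_notMem hnot]
  apply card_le_card
  intro u hu
  rw [mem_insert, mem_image] at hu
  rcases hu with rfl | ⟨z, hz, rfl⟩
  · exact dn_in hA hx (hpos' x hx)
  · exact dn_in hA hz (hpos z hz)

lemma lo3 (hfr : fr l a = {F, L}) (hFL : F < L) {q R : ℕ}
    (hR : ∀ x : Fin n → ℕ, ∀ q, x ∈ P l a q → q = x F + x L + R) {A : Finset (Fin n → ℕ)}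
    (hA : A ⊆ P l a (q + 1)) (hne : A ≠ P l a (q + 1)) :
    A.card ≤ (sh l a A).card := by
  classical
  obtain ⟨z, hz, hzA⟩ : ∃ z ∈ P l a (q + 1), z ∉ A := by
    by_contra hno
    push Not at hno
    exact hne (Finset.Subset.antisymm hA hno)
  have hzR := hR z _ hz
  have hzb := (mem_P.1 hz).1
  have hcase : ∀ x ∈ A, (x F < z F ∧ l L < x L) ∨ (z F < x F ∧ l F < x F) := by
    intro x hx
    have h1 := hR x _ (hA hx)
    have h2 := hzb F
    have h3 := hzb L
    rcases lt_trichotomy (x F) (z F) with h | h | h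
    · left; omega
    · exact absurd (eqF hfr (hA hx) hz h ▸ hx) hzA
    · right; omega
  apply Finset.card_le_card_of_injOn (fun x => if x F < z F then dn x L else dn x F)
  · intro x hx
    simp only
    rcases hcase x hx with h | h
    · rw [if_pos h.1]; exact dn_in hA hx h.2
    · rw [if_neg (by omega)]; exact dn_in hA hx h.2
  · intro x hx y hy h
    simp only at h
    have h0 := congrFun h F
    apply eqF hfr (hA hx) (hA hy)
    rcases hcase x hx with h1 | h1 <;> rcases hcase y hy with h2 | h2
    · rw [if_pos h1.1, if_pos h2.1, dn_ne _ (ne_of_lt hFL), dn_ne _ (ne_of_lt hFL)] at h0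
      exact h0
    · rw [if_pos h1.1, if_neg (by omega), dn_ne _ (ne_of_lt hFL), dn_self] at h0
      omega
    · rw [if_neg (by omega), if_pos h2.1, dn_ne _ (ne_of_lt hFL), dn_self] at h0
      omega
    · rw [if_neg (by omega), if_neg (by omega), dn_self, dn_self] at h0
      omega

lemma lo3' (hfr : fr l a = {F, L}) (hFL : F < L) {q R : ℕ}
    (hR : ∀ x : Fin n → ℕ, ∀ q, x ∈ P l a q → q = x F + x L + R) :
    (P l a (q + 1)).card ≤ (sh l a (P l a (q + 1))).card + 1 := by
  classical
  rcases Finset.eq_empty_or_nonempty (P l a (q + 1)) with h | ⟨z, hz⟩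
  · rw [h]; simp
  · have h1 := lo3 hfr hFL hR (Finset.erase_subset z (P l a (q + 1)))
      (by intro h; exact (Finset.notMem_erase z _) (h ▸ hz))
    have h2 := Finset.card_erase_add_one hz
    have h3 := card_le_card (sh_mono (l := l) (a := a) (Finset.erase_subset z (P l a (q + 1))))
    omega

lemma up3 (hFL : F < L) {q R : ℕ}
    (hR : ∀ x : Fin n → ℕ, ∀ q, x ∈ P l a q → q = x F + x L + R)
    (hq : q + 1 ≤ a F + l L + R) (hq' : q + 1 ≤ l F + a L + R)
    (hne : (P l a (q + 1)).Nonempty) :
    (P l a q).card + 1 ≤ (P l a (q + 1)).card := by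
  classical
  obtain ⟨x, hx, hmin⟩ := Finset.exists_min_image (P l a (q + 1)) (fun x => x L) hne
  have hxL : x L = l L := by
    by_contra h
    have h1 := (mem_P.1 hx).1 L
    have h2 := hR x _ hx
    have h3 := hmin _ (mv_mem (ne_of_gt hFL) hx (i := L) (j := F) (by omega) (by omega))
    rw [mv_i (ne_of_gt hFL)] at h3
    omega
  have hnot : x ∉ (P l a q).image (fun u => up u L) := by
    intro h
    rw [mem_image] at h
    obtain ⟨u, hu, rfl⟩ := h
    rw [up_self] at hxL
    have := (mem_P.1 hu).1 L
    omega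
  have hcard : ((P l a q).image (fun u => up u L)).card = (P l a q).card :=
    Finset.card_image_of_injective _ (fun u v h => up_inj h)
  rw [← hcard, ← Finset.card_insert_of_notMem hnot]
  apply card_le_card
  intro u hu
  rw [mem_insert, mem_image] at hu
  rcases hu with rfl | ⟨z, hz, rfl⟩
  · exact hx
  · apply up_mem_P hz
    have h2 := hR z _ hz
    have h3 := (mem_P.1 hz).1 F
    omega

lemma base2 (hfr : fr l a = {F, L}) (hFL : F < L) (hs : a F + l L ≤ a L + l F) (q : ℕ) :
    Thm l a q := by
  classical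
  rcases Finset.eq_empty_or_nonempty (P l a (q + 1)) with h0 | hne
  · exact base1 (by rw [h0]; simp)
  obtain ⟨R, hR⟩ := deg_two hfr hFL
  intro A B hA hB
  obtain ⟨N, hN⟩ : ∃ N, N = (P l a (q + 1)).card := ⟨_, rfl⟩
  have hN1 : 1 ≤ N := by rw [hN]; exact Finset.card_pos.2 hne
  have hxN : A.card ≤ N := by rw [hN]; exact card_le_card hA
  have hyN : B.card ≤ N := by rw [hN]; exact card_le_card hB
  obtain ⟨S1, hS1⟩ : ∃ S1, S1 = seg (P l a (q + 1)) (A.card + B.card) := ⟨_, rfl⟩
  obtain ⟨S2, hS2⟩ : ∃ S2, S2 = seg (P l a (q + 1)) (A.card + B.card - N) := ⟨_, rfl⟩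
  have i1 : Ini (P l a (q + 1)) S1 := by rw [hS1]; exact seg_ini _ _
  have i2 : Ini (P l a (q + 1)) S2 := by rw [hS2]; exact seg_ini _ _
  have c1 : S1.card = min (A.card + B.card) N := by rw [hS1, card_seg, ← hN]
  have c2 : S2.card = min (A.card + B.card - N) N := by rw [hS2, card_seg, ← hN]
  rw [← hN, ← hS1, ← hS2]
  rcases Nat.lt_or_ge (a F + l L + R) (q + 1) with h1 | h1
  · rcases Nat.lt_or_ge (l F + a L + R) (q + 1) with h2 | h2
    · -- case `c < r`
      have u1 := upE hfr hFL i1
      have u2 := upE hfr hFL i2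
      have v1 : A.card + (if A.card = 0 then 0 else 1) ≤ (sh l a A).card := by
        split_ifs with h
        · rw [h]; omega
        · exact lo2 hFL hR h1 h2 hA h
      have v2 : B.card + (if B.card = 0 then 0 else 1) ≤ (sh l a B).card := by
        split_ifs with h
        · rw [h]; omega
        · exact lo2 hFL hR h1 h2 hB h
      rw [c1] at u1
      rw [c2] at u2
      split_ifs at u1 u2 v1 v2 <;> omega
    · -- case `b < r ≤ c`
      have u1 := upS hfr hFL hR h2 i1
      have u2 := upS hfr hFL hR h2 i2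
      have v1 := lo1 hR h1 hA
      have v2 := lo1 hR h1 hB
      rw [c1] at u1
      rw [c2] at u2
      omega
  · -- case `r ≤ b`
    have h2 : q + 1 ≤ l F + a L + R := by omega
    have u1 := upS hfr hFL hR h2 i1
    have u2 := upS hfr hFL hR h2 i2
    have u3 := up3 hFL hR h1 h2 hne
    have u4 := card_le_card (sh_sub i1.1)
    have u5 := card_le_card (sh_sub i2.1)
    rw [← hN] at u3
    have key : ∀ E : Finset (Fin n → ℕ), E ⊆ P l a (q + 1) → min E.card (N - 1)
        ≤ (sh l a E).card := by
      intro E hE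
      by_cases h : E = P l a (q + 1)
      · have := lo3' hfr hFL hR (q := q)
        rw [h, ← hN] at *
        omega
      · have := lo3 hfr hFL hR hE h
        omega
    have v1 := key A hA
    have v2 := key B hB
    rw [c1] at u1
    rw [c2] at u2
    omega

end two

/-- main theorem: shadows of pairs of families in a sorted box -/
theorem main_ineq (t : ℕ) : ∀ l a : Fin n → ℕ, (fr l a).card = t → Srt l a → ∀ q, Thm l a q := by
  classical
  induction t using Nat.strong_induction_on with
  | _ t ih =>
  intro l a ht hs q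
  rcases Nat.lt_or_ge t 3 with h3 | h3
  · rcases Nat.lt_or_ge t 2 with h2 | h2
    · -- at most one free coordinate
      apply base1
      rw [Finset.card_le_one]
      intro x hx y hy
      rcases Finset.eq_empty_or_nonempty (fr l a) with h0 | ⟨i, hi⟩
      · funext k
        exact not_fr hx hy (by rw [h0]; exact Finset.notMem_empty k)
      · apply eq_of_agree hx hy (i := i)
        intro k hk hki
        have : (fr l a).card ≤ 1 := by omega
        rw [Finset.card_le_one] at this
        exact absurd (this k hk i hi) hki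
    · -- two free coordinates
      obtain ⟨i, j, hij, hfr⟩ := Finset.card_eq_two.1 (by omega : (fr l a).card = 2)
      have hi : i ∈ fr l a := by rw [hfr]; simp
      have hj : j ∈ fr l a := by rw [hfr]; simp
      rcases lt_or_gt_of_ne hij with h | h
      · exact base2 hfr h (hs i hi j hj h) q
      · exact base2 (by rw [hfr, Finset.pair_comm]) h (hs j hj i hi h) q
  · apply step (by omega)
    intro i hi j hj1 hj2
    have hfr' : fr (Function.update l i j) (Function.update a i j) = (fr l a).erase i := by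
      ext k
      rw [mem_erase, mem_fr, mem_fr]
      by_cases hk : k = i
      · subst hk; simp
      · simp [hk]
    refine ih (t - 1) (by omega) _ _ ?_ ?_ q
    · rw [hfr', Finset.card_erase_of_mem hi, ht]
    · intro k hk m hm hkm
      rw [hfr', mem_erase] at hk hm
      rw [Function.update_of_ne hk.1, Function.update_of_ne hm.1, Function.update_of_ne hk.1,
        Function.update_of_ne hm.1]
      exact hs k hk.2 m hm.2 hkm

end Pool.Agent.Q296.PO
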