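import Mathlib

/-! Lexicographic initial segments and shadows in boxes of `ℕ^n`: basic facts. -/

set_option autoImplicit false

namespace Pool.Agent.Q296.PO

open Finset

variable {n : ℕ}

/-- degree -/
def deg (x : Fin n → ℕ) : ℕ := ∑ i, x i

/-- add one unit -/
def up (u : Fin n → ℕ) (i : Fin n) : Fin n → ℕ := Function.update u i (u i + 1)

/-- remove one unit -/
def dn (u : Fin n → ℕ) (i : Fin n) : Fin n → ℕ := Function.update u i (u i - 1)

@[simp] lemma up_self (u : Fin n → ℕ) (i : Fin n) : up u i i = u i + 1 := by simp [up]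

lemma up_ne (u : Fin n → ℕ) {i j : Fin n} (h : j ≠ i) : up u i j = u j := by
  simp [up, Function.update_of_ne h]

@[simp] lemma dn_self (u : Fin n → ℕ) (i : Fin n) : dn u i i = u i - 1 := by simp [dn]

lemma dn_ne (u : Fin n → ℕ) {i j : Fin n} (h : j ≠ i) : dn u i j = u j := by
  simp [dn, Function.update_of_ne h]

lemma up_dn (u : Fin n → ℕ) {i : Fin n} (h : 0 < u i) : up (dn u i) i = u := by
  funext j
  by_cases hj : j = i
  · subst hj; simp; omega
  · rw [up_ne _ hj, dn_ne _ hj]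

lemma dn_up (u : Fin n → ℕ) (i : Fin n) : dn (up u i) i = u := by
  funext j
  by_cases hj : j = i
  · subst hj; simp
  · rw [dn_ne _ hj, up_ne _ hj]

lemma up_inj {u v : Fin n → ℕ} {i : Fin n} (h : up u i = up v i) : u = v := by
  rw [← dn_up u i, h, dn_up]

lemma deg_up (u : Fin n → ℕ) (i : Fin n) : deg (up u i) = deg u + 1 := by
  unfold deg
  rw [← Finset.add_sum_erase univ _ (mem_univ i), ← Finset.add_sum_erase univ u (mem_univ i),
    up_self]
  have : ∑ x ∈ univ.erase i, up u i x = ∑ x ∈ univ.erase i, u x :=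
    Finset.sum_congr rfl (fun x hx => up_ne u (Finset.ne_of_mem_erase hx))
  rw [this]; ring

lemma deg_dn (u : Fin n → ℕ) {i : Fin n} (h : 0 < u i) : deg (dn u i) + 1 = deg u := by
  rw [← deg_up, up_dn u h]

/-- lexicographic order -/
def lx (x y : Fin n → ℕ) : Prop := toLex x < toLex y

lemma lx_iff (x y : Fin n → ℕ) : lx x y ↔ ∃ i, (∀ j, j < i → x j = y j) ∧ x i < y i := Iff.rfl

lemma lx_irrefl (x : Fin n → ℕ) : ¬ lx x x := lt_irrefl (toLex x)

lemma lx_trans {x y z : Fin n → ℕ} (h1 : lx x y) (h2 : lx y z) : lx x z := lt_trans (a := toLex x) h1 h2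

lemma lx_asymm {x y : Fin n → ℕ} (h1 : lx x y) (h2 : lx y x) : False := lx_irrefl x (lx_trans h1 h2)

lemma lx_tri (x y : Fin n → ℕ) : lx x y ∨ x = y ∨ lx y x := by
  rcases lt_trichotomy (toLex x) (toLex y) with h | h | h
  · exact Or.inl h
  · exact Or.inr (Or.inl (toLex_inj.1 h))
  · exact Or.inr (Or.inr h)

/-- initial segments of a finite set -/
def Ini (S A : Finset (Fin n → ℕ)) : Prop := A ⊆ S ∧ ∀ x ∈ A, ∀ z ∈ S, lx z x → z ∈ A

open scoped Classical in
/-- number of smaller elements -/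
noncomputable def rk (S : Finset (Fin n → ℕ)) (x : Fin n → ℕ) : ℕ := (S.filter (fun z => lx z x)).card

open scoped Classical in
/-- the first `k` elements -/
noncomputable def seg (S : Finset (Fin n → ℕ)) (k : ℕ) : Finset (Fin n → ℕ) :=
  S.filter (fun x => rk S x < k)

lemma rk_lt {S : Finset (Fin n → ℕ)} {x y : Fin n → ℕ} (hx : x ∈ S) (h : lx x y) :
    rk S x < rk S y := by
  classical
  unfold rk
  apply Finset.card_lt_card
  rw [Finset.ssubset_iff_of_subset]
  · exact ⟨x, by simp [hx, h], by simp [lx_irrefl]⟩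
  · intro z hz
    rw [mem_filter] at hz ⊢
    exact ⟨hz.1, lx_trans hz.2 h⟩

lemma rk_lt_card {S : Finset (Fin n → ℕ)} {x : Fin n → ℕ} (hx : x ∈ S) : rk S x < S.card := by
  classical
  unfold rk
  apply Finset.card_lt_card
  rw [Finset.ssubset_iff_of_subset (Finset.filter_subset _ _)]
  exact ⟨x, hx, by simp [lx_irrefl]⟩

lemma rk_inj {S : Finset (Fin n → ℕ)} {x y : Fin n → ℕ} (hx : x ∈ S) (hy : y ∈ S)
    (h : rk S x = rk S y) : x = y := by
  rcases lx_tri x y with h1 | h1 | h1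
  · have := rk_lt hx h1; omega
  · exact h1
  · have := rk_lt hy h1; omega

lemma mem_seg {S : Finset (Fin n → ℕ)} {k : ℕ} {x : Fin n → ℕ} :
    x ∈ seg S k ↔ x ∈ S ∧ rk S x < k := by
  classical
  unfold seg; rw [mem_filter]

lemma seg_ini (S : Finset (Fin n → ℕ)) (k : ℕ) : Ini S (seg S k) := by
  refine ⟨fun x hx => (mem_seg.1 hx).1, fun x hx z hz h => ?_⟩
  rw [mem_seg] at hx ⊢
  exact ⟨hz, (rk_lt hz h).trans hx.2⟩

lemma card_seg (S : Finset (Fin n → ℕ)) (k : ℕ) : (seg S k).card = min k S.card := by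
  classical
  have himg : S.image (rk S) = range S.card := by
    apply Finset.eq_of_subset_of_card_le
    · intro m hm
      rw [mem_image] at hm
      obtain ⟨x, hx, rfl⟩ := hm
      exact mem_range.2 (rk_lt_card hx)
    · rw [card_range, Finset.card_image_of_injOn (fun x hx y hy h => rk_inj hx hy h)]
  have h2 : (seg S k).image (rk S) = range (min k S.card) := by
    ext m
    rw [mem_image, mem_range]
    constructor
    · rintro ⟨x, hx, rfl⟩
      rw [mem_seg] at hx
      exact lt_min hx.2 (rk_lt_card hx.1)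
    · intro hm
      have : m ∈ S.image (rk S) := by
        rw [himg, mem_range]; exact lt_of_lt_of_le hm (min_le_right _ _)
      rw [mem_image] at this
      obtain ⟨x, hx, rfl⟩ := this
      exact ⟨x, mem_seg.2 ⟨hx, lt_of_lt_of_le hm (min_le_left _ _)⟩, rfl⟩
  rw [← card_range (min k S.card), ← h2,
    Finset.card_image_of_injOn (fun x hx y hy h => rk_inj (mem_seg.1 hx).1 (mem_seg.1 hy).1 h)]

lemma ini_or {S A B : Finset (Fin n → ℕ)} (hA : Ini S A) (hB : Ini S B) : A ⊆ B ∨ B ⊆ A := by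
  by_contra hcon
  push Not at hcon
  obtain ⟨h1, h2⟩ := hcon
  obtain ⟨x, hx, hxB⟩ := Finset.not_subset.1 h1
  obtain ⟨y, hy, hyA⟩ := Finset.not_subset.1 h2
  rcases lx_tri x y with h | h | h
  · exact hxB (hB.2 y hy x (hA.1 hx) h)
  · exact hxB (h ▸ hy)
  · exact hyA (hA.2 x hx y (hB.1 hy) h)

lemma ini_sub {S A B : Finset (Fin n → ℕ)} (hA : Ini S A) (hB : Ini S B) (h : A.card ≤ B.card) :
    A ⊆ B := by
  rcases ini_or hA hB with h1 | h1
  · exact h1
  · rw [Finset.eq_of_subset_of_card_le h1 h]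

lemma ini_eq {S A B : Finset (Fin n → ℕ)} (hA : Ini S A) (hB : Ini S B) (h : A.card = B.card) :
    A = B := Finset.Subset.antisymm (ini_sub hA hB h.le) (ini_sub hB hA h.ge)

lemma ini_eq_seg {S A : Finset (Fin n → ℕ)} (hA : Ini S A) {k : ℕ} (hk : A.card = min k S.card) :
    A = seg S k := ini_eq hA (seg_ini S k) (by rw [card_seg, hk])

lemma seg_mono (S : Finset (Fin n → ℕ)) {k k' : ℕ} (h : k ≤ k') : seg S k ⊆ seg S k' := by
  intro x hx
  rw [mem_seg] at hx ⊢
  exact ⟨hx.1, by omega⟩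

lemma seg_all (S : Finset (Fin n → ℕ)) {k : ℕ} (h : S.card ≤ k) : seg S k = S := by
  ext x
  rw [mem_seg]
  exact ⟨fun hx => hx.1, fun hx => ⟨hx, (rk_lt_card hx).trans_le h⟩⟩

@[simp] lemma seg_zero (S : Finset (Fin n → ℕ)) : seg S 0 = ∅ := by
  ext x; rw [mem_seg]; simp

lemma card_union_ini {S A B : Finset (Fin n → ℕ)} [DecidableEq (Fin n → ℕ)] (hA : Ini S A)
    (hB : Ini S B) : (A ∪ B).card = max A.card B.card := by
  rcases ini_or hA hB with h | h
  · rw [Finset.union_eq_right.2 h, max_eq_right (card_le_card h)]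
  · rw [Finset.union_eq_left.2 h, max_eq_left (card_le_card h)]

/-- the box -/
def bx (l a : Fin n → ℕ) : Finset (Fin n → ℕ) := Fintype.piFinset (fun i => Icc (l i) (a i))

lemma mem_bx {l a x : Fin n → ℕ} : x ∈ bx l a ↔ ∀ i, l i ≤ x i ∧ x i ≤ a i := by
  unfold bx
  rw [Fintype.mem_piFinset]
  simp only [mem_Icc]

/-- elements of degree `q` -/
def P (l a : Fin n → ℕ) (q : ℕ) : Finset (Fin n → ℕ) := (bx l a).filter (fun x => deg x = q)

lemma mem_P {l a x : Fin n → ℕ} {q : ℕ} :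
    x ∈ P l a q ↔ (∀ i, l i ≤ x i ∧ x i ≤ a i) ∧ deg x = q := by
  unfold P; rw [mem_filter, mem_bx]

open scoped Classical in
/-- the shadow -/
noncomputable def sh (l a : Fin n → ℕ) (A : Finset (Fin n → ℕ)) : Finset (Fin n → ℕ) :=
  (bx l a).filter (fun u => ∃ i, up u i ∈ A)

lemma mem_sh {l a u : Fin n → ℕ} {A : Finset (Fin n → ℕ)} :
    u ∈ sh l a A ↔ (∀ i, l i ≤ u i ∧ u i ≤ a i) ∧ ∃ i, up u i ∈ A := by
  classical
  unfold sh; rw [mem_filter, mem_bx]

lemma sh_mono {l a : Fin n → ℕ} {A B : Finset (Fin n → ℕ)} (h : A ⊆ B) : sh l a A ⊆ sh l a B := by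
  intro u hu
  rw [mem_sh] at hu ⊢
  obtain ⟨h1, i, h2⟩ := hu
  exact ⟨h1, i, h h2⟩

@[simp] lemma sh_empty (l a : Fin n → ℕ) : sh l a ∅ = ∅ := by
  ext u; rw [mem_sh]; simp

lemma sh_sub {l a : Fin n → ℕ} {q : ℕ} {A : Finset (Fin n → ℕ)} (hA : A ⊆ P l a (q + 1)) :
    sh l a A ⊆ P l a q := by
  intro u hu
  rw [mem_sh] at hu
  obtain ⟨h1, i, h2⟩ := hu
  rw [mem_P]
  refine ⟨h1, ?_⟩
  have := (mem_P.1 (hA h2)).2
  rw [deg_up] at this
  omega

lemma deg_lt_exists {x y : Fin n → ℕ} (h : deg x < deg y) : ∃ i, x i < y i := by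
  by_contra hcon
  push Not at hcon
  have : deg y ≤ deg x := Finset.sum_le_sum (fun i _ => hcon i)
  omega

lemma up_mem_P {l a u : Fin n → ℕ} {q : ℕ} {i : Fin n} (hu : u ∈ P l a q) (hi : u i < a i) :
    up u i ∈ P l a (q + 1) := by
  rw [mem_P] at hu ⊢
  refine ⟨fun j => ?_, by rw [deg_up, hu.2]⟩
  by_cases hj : j = i
  · subst hj
    rw [up_self]
    exact ⟨by have := (hu.1 j).1; omega, by omega⟩
  · rw [up_ne _ hj]; exact hu.1 j

/-- the shadow of all elements -/
lemma sh_P {l a : Fin n → ℕ} {q : ℕ} (h : (P l a (q + 1)).Nonempty) :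
    sh l a (P l a (q + 1)) = P l a q := by
  apply Finset.Subset.antisymm (sh_sub (Finset.Subset.refl _))
  intro u hu
  obtain ⟨x, hx⟩ := h
  rw [mem_P] at hx
  have hu' := mem_P.1 hu
  obtain ⟨i, hi⟩ := deg_lt_exists (x := u) (y := x) (by rw [hu'.2, hx.2]; omega)
  rw [mem_sh]
  exact ⟨hu'.1, i, up_mem_P hu (lt_of_lt_of_le hi (hx.1 i).2)⟩

/-- the shadow of an initial segment is an initial segment -/
lemma sh_ini {l a : Fin n → ℕ} {q : ℕ} {A : Finset (Fin n → ℕ)} (hA : Ini (P l a (q + 1)) A) :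
    Ini (P l a q) (sh l a A) := by
  classical
  refine ⟨sh_sub hA.1, fun u' hu' z hz hlt => ?_⟩
  rw [mem_sh] at hu'
  obtain ⟨hu1, k', hk'⟩ := hu'
  have hx' := mem_P.1 (hA.1 hk')
  obtain ⟨i, hi1, hi2⟩ := (lx_iff z u').1 hlt
  have hz' := mem_P.1 hz
  obtain ⟨K, hK⟩ : ∃ K, K = univ.filter (fun k => z k < a k) := ⟨_, rfl⟩
  have hiK : i ∈ K := by
    rw [hK, mem_filter]; exact ⟨mem_univ _, lt_of_lt_of_le hi2 (hu1 i).2⟩
  obtain ⟨k, hk⟩ : ∃ k, k = K.max' ⟨i, hiK⟩ := ⟨_, rfl⟩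
  have hkK : k ∈ K := by rw [hk]; exact Finset.max'_mem _ _
  have hik : i ≤ k := by rw [hk]; exact Finset.le_max' _ _ hiK
  have hkmax : ∀ j, k < j → z j = a j := by
    intro j hj
    by_contra hne
    have : j ∈ K := by
      rw [hK, mem_filter]; exact ⟨mem_univ _, lt_of_le_of_ne (hz'.1 j).2 hne⟩
    have := Finset.le_max' _ _ this
    rw [← hk] at this
    exact absurd hj (not_lt.2 this)
  have hza : z k < a k := by rw [hK, mem_filter] at hkK; exact hkK.2
  have hup : up z k ∈ P l a (q + 1) := up_mem_P hz hza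
  rw [mem_sh]
  refine ⟨hz'.1, k, ?_⟩
  -- compare `up z k` and `up u' k'`
  rcases lt_or_ge k' i with h1 | h1
  · refine hA.2 _ hk' _ hup ((lx_iff _ _).2 ⟨k', fun j hj => ?_, ?_⟩)
    · rw [up_ne _ (ne_of_lt (hj.trans (h1.trans_le hik))), up_ne _ (ne_of_lt hj),
        hi1 j (hj.trans h1)]
    · rw [up_ne _ (ne_of_lt (h1.trans_le hik)), up_self, hi1 k' h1]
      omega
  · have hle : u' i ≤ up u' k' i := by
      by_cases h : i = k'
      · subst h; rw [up_self]; omega
      · rw [up_ne _ h]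
    have hbefore : ∀ j, j < i → up z k j = up u' k' j := by
      intro j hj
      rw [up_ne _ (ne_of_lt (hj.trans_le hik)), up_ne _ (ne_of_lt (hj.trans_le h1)), hi1 j hj]
    rcases hik.lt_or_eq with h2 | h2
    · refine hA.2 _ hk' _ hup ((lx_iff _ _).2 ⟨i, hbefore, ?_⟩)
      rw [up_ne _ (ne_of_lt h2)]
      omega
    · subst h2
      rcases lt_or_ge (up z i i) (up u' k' i) with h3 | h3
      · exact hA.2 _ hk' _ hup ((lx_iff _ _).2 ⟨i, hbefore, h3⟩)
      · have hall : ∀ j ∈ (univ : Finset (Fin n)), up u' k' j ≤ up z i j := by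
          intro j _
          rcases lt_trichotomy j i with h4 | h4 | h4
          · rw [hbefore j h4]
          · rw [h4]; exact h3
          · rw [up_ne z (ne_of_gt h4), hkmax j h4]
            exact (hx'.1 j).2
        have hsum : ∑ j, up u' k' j = ∑ j, up z i j := by
          have e1 : deg (up u' k') = q + 1 := hx'.2
          have e2 : deg (up z i) = q + 1 := (mem_P.1 hup).2
          unfold deg at e1 e2
          rw [e1, e2]
        have heq := (Finset.sum_eq_sum_iff_of_le hall).1 hsum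
        have : up z i = up u' k' := by
          funext j; exact (heq j (mem_univ j)).symm
        rw [this]; exact hk'

end Pool.Agent.Q296.PO
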