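import Pool.Agent.Q296.PO.Basic

/-! Compression of a pair of families in a box. -/

set_option autoImplicit false

namespace Pool.Agent.Q296.PO

open Finset

variable {n : ℕ}

/-- the main inequality for pairs of families of degree `q+1` in the box -/
def Thm (l a : Fin n → ℕ) (q : ℕ) : Prop :=
  ∀ A B : Finset (Fin n → ℕ), A ⊆ P l a (q + 1) → B ⊆ P l a (q + 1) →
    (sh l a (seg (P l a (q + 1)) (A.card + B.card))).card +
    (sh l a (seg (P l a (q + 1)) (A.card + B.card - (P l a (q + 1)).card))).card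
      ≤ (sh l a A).card + (sh l a B).card

/-- sections -/
def sec (A : Finset (Fin n → ℕ)) (i : Fin n) (j : ℕ) : Finset (Fin n → ℕ) :=
  A.filter (fun x => x i = j)

lemma mem_sec {A : Finset (Fin n → ℕ)} {i : Fin n} {j : ℕ} {x : Fin n → ℕ} :
    x ∈ sec A i j ↔ x ∈ A ∧ x i = j := by unfold sec; rw [mem_filter]

lemma sec_mono {A B : Finset (Fin n → ℕ)} (h : A ⊆ B) (i : Fin n) (j : ℕ) :
    sec A i j ⊆ sec B i j := by
  intro x hx
  rw [mem_sec] at hx ⊢
  exact ⟨h hx.1, hx.2⟩

lemma P_sec {l a : Fin n → ℕ} {i : Fin n} {j q : ℕ} (h1 : l i ≤ j) (h2 : j ≤ a i) :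
    P (Function.update l i j) (Function.update a i j) q = sec (P l a q) i j := by
  ext x
  rw [mem_P, mem_sec, mem_P]
  constructor
  · rintro ⟨hx, hd⟩
    have hi := hx i
    rw [Function.update_self, Function.update_self] at hi
    refine ⟨⟨fun k => ?_, hd⟩, by omega⟩
    by_cases hk : k = i
    · subst hk; omega
    · have := hx k
      rwa [Function.update_of_ne hk, Function.update_of_ne hk] at this
  · rintro ⟨⟨hx, hd⟩, hi⟩
    refine ⟨fun k => ?_, hd⟩
    by_cases hk : k = i
    · subst hk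
      rw [Function.update_self, Function.update_self]; omega
    · rw [Function.update_of_ne hk, Function.update_of_ne hk]; exact hx k

open scoped Classical in
/-- the part of the shadow of `A` coming from the next section -/
noncomputable def nx (l a : Fin n → ℕ) (q : ℕ) (A : Finset (Fin n → ℕ)) (i : Fin n) (j : ℕ) :
    Finset (Fin n → ℕ) := (sec (P l a q) i j).filter (fun u => up u i ∈ A)

lemma mem_nx {l a : Fin n → ℕ} {q : ℕ} {A : Finset (Fin n → ℕ)} {i : Fin n} {j : ℕ}
    {u : Fin n → ℕ} : u ∈ nx l a q A i j ↔ (u ∈ P l a q ∧ u i = j) ∧ up u i ∈ A := by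
  classical
  unfold nx; rw [mem_filter, mem_sec]

lemma sec_sh {l a : Fin n → ℕ} {i : Fin n} {j q : ℕ} (h1 : l i ≤ j) (h2 : j ≤ a i)
    {A : Finset (Fin n → ℕ)} (hA : A ⊆ P l a (q + 1)) :
    sec (sh l a A) i j =
      sh (Function.update l i j) (Function.update a i j) (sec A i j) ∪ nx l a q A i j := by
  classical
  ext u
  rw [mem_union, mem_sec, mem_nx, mem_sh]
  constructor
  · rintro ⟨hu, hj⟩
    have huP := sh_sub hA (mem_sh.2 hu)
    obtain ⟨hu1, k, hk⟩ := hu
    by_cases hki : k = i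
    · subst hki
      exact Or.inr ⟨⟨huP, hj⟩, hk⟩
    · refine Or.inl (mem_sh.2 ⟨fun m => ?_, k, mem_sec.2 ⟨hk, ?_⟩⟩)
      · by_cases hm : m = i
        · subst hm
          rw [Function.update_self, Function.update_self]; omega
        · rw [Function.update_of_ne hm, Function.update_of_ne hm]; exact hu1 m
      · rw [up_ne _ (Ne.symm hki)]; exact hj
  · rintro (h | h)
    · obtain ⟨hu1, k, hk⟩ := mem_sh.1 h
      have hi := hu1 i
      rw [Function.update_self, Function.update_self] at hi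
      refine ⟨⟨fun m => ?_, k, (mem_sec.1 hk).1⟩, by omega⟩
      by_cases hm : m = i
      · subst hm; omega
      · have := hu1 m
        rwa [Function.update_of_ne hm, Function.update_of_ne hm] at this
    · obtain ⟨⟨h3, h4⟩, h5⟩ := h
      exact ⟨⟨(mem_P.1 h3).1, i, h5⟩, h4⟩

lemma card_nx {l a : Fin n → ℕ} {i : Fin n} {j q : ℕ} (h1 : l i ≤ j)
    {A : Finset (Fin n → ℕ)} (hA : A ⊆ P l a (q + 1)) :
    (nx l a q A i j).card = (sec A i (j + 1)).card := by
  classical
  apply Finset.card_bij (fun u _ => up u i)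
  · intro u hu
    rw [mem_nx] at hu
    rw [mem_sec]
    exact ⟨hu.2, by rw [up_self, hu.1.2]⟩
  · intro u _ v _ h
    exact up_inj h
  · intro x hx
    rw [mem_sec] at hx
    have hx' := mem_P.1 (hA hx.1)
    have hpos : 0 < x i := by omega
    refine ⟨dn x i, ?_, up_dn x hpos⟩
    rw [mem_nx, mem_P]
    refine ⟨⟨⟨fun k => ?_, ?_⟩, by rw [dn_self]; omega⟩, by rw [up_dn x hpos]; exact hx.1⟩
    · by_cases hk : k = i
      · subst hk
        rw [dn_self]
        have := (hx'.1 k).2
        omega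
      · rw [dn_ne _ hk]; exact hx'.1 k
    · have := deg_dn x hpos
      have h2 := hx'.2
      omega

lemma lx_up {z u : Fin n → ℕ} {i : Fin n} (h : lx z u) (hi : z i = u i) :
    lx (up z i) (up u i) := by
  obtain ⟨k, hk1, hk2⟩ := (lx_iff z u).1 h
  have hki : k ≠ i := by
    rintro rfl; omega
  refine (lx_iff _ _).2 ⟨k, fun m hm => ?_, ?_⟩
  · by_cases hmi : m = i
    · subst hmi; rw [up_self, up_self, hi]
    · rw [up_ne _ hmi, up_ne _ hmi, hk1 m hm]
  · rw [up_ne _ hki, up_ne _ hki]; exact hk2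

lemma nx_ini {l a : Fin n → ℕ} {i : Fin n} {j q : ℕ}
    {A : Finset (Fin n → ℕ)} (hA : A ⊆ P l a (q + 1))
    (hI : Ini (sec (P l a (q + 1)) i (j + 1)) (sec A i (j + 1))) :
    Ini (sec (P l a q) i j) (nx l a q A i j) := by
  refine ⟨fun u hu => ?_, fun u hu z hz hlt => ?_⟩
  · rw [mem_nx] at hu; rw [mem_sec]; exact hu.1
  · rw [mem_nx] at hu
    rw [mem_sec] at hz
    rw [mem_nx]
    refine ⟨hz, ?_⟩
    have hai := ((mem_P.1 (hA hu.2)).1 i).2
    rw [up_self] at hai
    have hz' : up z i ∈ sec (P l a (q + 1)) i (j + 1) := by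
      rw [mem_sec]
      exact ⟨up_mem_P hz.1 (by omega), by rw [up_self, hz.2]⟩
    have hu' : up u i ∈ sec A i (j + 1) := by
      rw [mem_sec]; exact ⟨hu.2, by rw [up_self, hu.1.2]⟩
    exact (mem_sec.1 (hI.2 _ hu' _ hz' (lx_up hlt (by omega)))).1

lemma card_sec_sh {l a : Fin n → ℕ} {i : Fin n} {j q : ℕ} (h1 : l i ≤ j) (h2 : j ≤ a i)
    {A : Finset (Fin n → ℕ)} (hA : A ⊆ P l a (q + 1))
    (hI : Ini (sec (P l a (q + 1)) i j) (sec A i j))
    (hI' : Ini (sec (P l a (q + 1)) i (j + 1)) (sec A i (j + 1))) :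
    (sec (sh l a A) i j).card =
      max (sh (Function.update l i j) (Function.update a i j) (sec A i j)).card
        (sec A i (j + 1)).card := by
  classical
  rw [sec_sh h1 h2 hA, ← card_nx h1 hA]
  apply card_union_ini (S := sec (P l a q) i j)
  · rw [← P_sec h1 h2]
    apply sh_ini
    rw [P_sec h1 h2]; exact hI
  · exact nx_ini hA hI'

lemma card_sec_sh_ge {l a : Fin n → ℕ} {i : Fin n} {j q : ℕ} (h1 : l i ≤ j) (h2 : j ≤ a i)
    {A : Finset (Fin n → ℕ)} (hA : A ⊆ P l a (q + 1)) :
    (sh (Function.update l i j) (Function.update a i j) (sec A i j)).card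
        ≤ (sec (sh l a A) i j).card ∧
      (sec A i (j + 1)).card ≤ (sec (sh l a A) i j).card := by
  classical
  rw [sec_sh h1 h2 hA, ← card_nx h1 hA]
  exact ⟨card_le_card subset_union_left, card_le_card subset_union_right⟩

lemma card_sum {l a : Fin n → ℕ} {q : ℕ} {A : Finset (Fin n → ℕ)} (hA : A ⊆ P l a q)
    (i : Fin n) : A.card = ∑ j ∈ Icc (l i) (a i), (sec A i j).card := by
  classical
  apply Finset.card_eq_sum_card_fiberwise
  intro x hx
  have := (mem_P.1 (hA hx)).1 i
  simp only [coe_Icc, Set.mem_Icc]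
  exact this

open scoped Classical in
/-- the first compressed family -/
noncomputable def Ast (S A B : Finset (Fin n → ℕ)) (i : Fin n) : Finset (Fin n → ℕ) :=
  S.filter (fun x => rk (sec S i (x i)) x < (sec A i (x i)).card + (sec B i (x i)).card)

open scoped Classical in
/-- the second compressed family -/
noncomputable def Bst (S A B : Finset (Fin n → ℕ)) (i : Fin n) : Finset (Fin n → ℕ) :=
  S.filter (fun x => rk (sec S i (x i)) x + (sec S i (x i)).card
    < (sec A i (x i)).card + (sec B i (x i)).card)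

lemma mem_Ast {S A B : Finset (Fin n → ℕ)} {i : Fin n} {x : Fin n → ℕ} :
    x ∈ Ast S A B i ↔
      x ∈ S ∧ rk (sec S i (x i)) x < (sec A i (x i)).card + (sec B i (x i)).card := by
  classical
  unfold Ast; rw [mem_filter]

lemma mem_Bst {S A B : Finset (Fin n → ℕ)} {i : Fin n} {x : Fin n → ℕ} :
    x ∈ Bst S A B i ↔
      x ∈ S ∧ rk (sec S i (x i)) x + (sec S i (x i)).card
        < (sec A i (x i)).card + (sec B i (x i)).card := by
  classical
  unfold Bst; rw [mem_filter]

lemma Ast_sub (S A B : Finset (Fin n → ℕ)) (i : Fin n) : Ast S A B i ⊆ S :=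
  fun _ hx => (mem_Ast.1 hx).1

lemma Bst_sub (S A B : Finset (Fin n → ℕ)) (i : Fin n) : Bst S A B i ⊆ S :=
  fun _ hx => (mem_Bst.1 hx).1

lemma sec_Ast (S A B : Finset (Fin n → ℕ)) (i : Fin n) (j : ℕ) :
    sec (Ast S A B i) i j = seg (sec S i j) ((sec A i j).card + (sec B i j).card) := by
  ext x
  rw [mem_sec, mem_Ast, mem_seg, mem_sec]
  constructor
  · rintro ⟨⟨h1, h2⟩, h3⟩
    rw [h3] at h2
    exact ⟨⟨h1, h3⟩, h2⟩
  · rintro ⟨⟨h1, h3⟩, h2⟩
    rw [← h3] at h2
    exact ⟨⟨h1, h2⟩, h3⟩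

lemma sec_Bst (S A B : Finset (Fin n → ℕ)) (i : Fin n) (j : ℕ) :
    sec (Bst S A B i) i j =
      seg (sec S i j) ((sec A i j).card + (sec B i j).card - (sec S i j).card) := by
  ext x
  rw [mem_sec, mem_Bst, mem_seg, mem_sec]
  constructor
  · rintro ⟨⟨h1, h2⟩, h3⟩
    rw [h3] at h2
    exact ⟨⟨h1, h3⟩, by omega⟩
  · rintro ⟨⟨h1, h3⟩, h2⟩
    refine ⟨⟨h1, ?_⟩, h3⟩
    rw [h3]; omega

lemma card_split {N x y : ℕ} (hx : x ≤ N) (hy : y ≤ N) :
    min (x + y) N + min (x + y - N) N = x + y := by omega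

lemma card_AB {l a : Fin n → ℕ} {q : ℕ} {A B : Finset (Fin n → ℕ)} (hA : A ⊆ P l a q)
    (hB : B ⊆ P l a q) (i : Fin n) :
    (Ast (P l a q) A B i).card + (Bst (P l a q) A B i).card = A.card + B.card := by
  rw [card_sum (Ast_sub _ A B i) i, card_sum (Bst_sub _ A B i) i, card_sum hA i, card_sum hB i,
    ← Finset.sum_add_distrib, ← Finset.sum_add_distrib]
  apply Finset.sum_congr rfl
  intro j _
  rw [sec_Ast, sec_Bst, card_seg, card_seg]
  exact card_split (card_le_card (sec_mono hA i j)) (card_le_card (sec_mono hB i j))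

lemma card_sec_A_le {l a : Fin n → ℕ} {q : ℕ} {A : Finset (Fin n → ℕ)}
    (B : Finset (Fin n → ℕ)) (hA : A ⊆ P l a q) (i : Fin n) (j : ℕ) :
    (sec A i j).card ≤ (sec (Ast (P l a q) A B i) i j).card := by
  rw [sec_Ast, card_seg]
  exact le_min (Nat.le_add_right _ _) (card_le_card (sec_mono hA i j))

lemma card_A_le {l a : Fin n → ℕ} {q : ℕ} {A : Finset (Fin n → ℕ)} (B : Finset (Fin n → ℕ))
    (hA : A ⊆ P l a q) (i : Fin n) : A.card ≤ (Ast (P l a q) A B i).card := by
  rw [card_sum (Ast_sub _ A B i) i, card_sum hA i]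
  exact Finset.sum_le_sum (fun j _ => card_sec_A_le B hA i j)

/-- the shadows do not grow under compression -/
lemma comp_sh {l a : Fin n → ℕ} {q : ℕ} {i : Fin n}
    (H : ∀ j, l i ≤ j → j ≤ a i → Thm (Function.update l i j) (Function.update a i j) q)
    {A B : Finset (Fin n → ℕ)} (hA : A ⊆ P l a (q + 1)) (hB : B ⊆ P l a (q + 1)) :
    (sh l a (Ast (P l a (q + 1)) A B i)).card + (sh l a (Bst (P l a (q + 1)) A B i)).card
      ≤ (sh l a A).card + (sh l a B).card := by
  classical
  obtain ⟨S, hS⟩ : ∃ S, S = P l a (q + 1) := ⟨_, rfl⟩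
  have hAs : Ast S A B i ⊆ P l a (q + 1) := hS ▸ Ast_sub S A B i
  have hBs : Bst S A B i ⊆ P l a (q + 1) := hS ▸ Bst_sub S A B i
  rw [← hS]
  rw [card_sum (sh_sub hAs) i, card_sum (sh_sub hBs) i, card_sum (sh_sub hA) i,
    card_sum (sh_sub hB) i, ← Finset.sum_add_distrib, ← Finset.sum_add_distrib]
  apply Finset.sum_le_sum
  intro j hj
  rw [mem_Icc] at hj
  obtain ⟨hj1, hj2⟩ := hj
  have eA : ∀ m, Ini (sec (P l a (q + 1)) i m) (sec (Ast S A B i) i m) := by
    intro m; rw [sec_Ast, ← hS]; exact seg_ini _ _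
  have eB : ∀ m, Ini (sec (P l a (q + 1)) i m) (sec (Bst S A B i) i m) := by
    intro m; rw [sec_Bst, ← hS]; exact seg_ini _ _
  rw [card_sec_sh hj1 hj2 hAs (eA j) (eA (j + 1)), card_sec_sh hj1 hj2 hBs (eB j) (eB (j + 1))]
  obtain ⟨gA1, gA2⟩ := card_sec_sh_ge hj1 hj2 hA
  obtain ⟨gB1, gB2⟩ := card_sec_sh_ge hj1 hj2 hB
  -- the inequality in the section
  have T := H j hj1 hj2 (sec A i j) (sec B i j) (by rw [P_sec hj1 hj2]; exact sec_mono hA i j)
    (by rw [P_sec hj1 hj2]; exact sec_mono hB i j)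
  rw [P_sec hj1 hj2, ← hS, ← sec_Ast, ← sec_Bst] at T
  -- cardinalities in the next section
  have c1 : (sec A i (j + 1)).card ≤ (sec S i (j + 1)).card := by
    rw [hS]; exact card_le_card (sec_mono hA i _)
  have c2 : (sec B i (j + 1)).card ≤ (sec S i (j + 1)).card := by
    rw [hS]; exact card_le_card (sec_mono hB i _)
  have s1 : (sec (Ast S A B i) i (j + 1)).card =
      min ((sec A i (j + 1)).card + (sec B i (j + 1)).card) (sec S i (j + 1)).card := by
    rw [sec_Ast, card_seg]
  have s2 : (sec (Bst S A B i) i (j + 1)).card =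
      min ((sec A i (j + 1)).card + (sec B i (j + 1)).card - (sec S i (j + 1)).card)
        (sec S i (j + 1)).card := by
    rw [sec_Bst, card_seg]
  have hP : P (Function.update l i j) (Function.update a i j) q = sec (P l a q) i j :=
    P_sec hj1 hj2
  have hnle : (sec S i (j + 1)).card ≤ (sec (P l a q) i j).card := by
    rw [hS, ← card_nx hj1 (Finset.Subset.refl _)]
    apply card_le_card
    intro u hu
    rw [mem_nx] at hu; rw [mem_sec]; exact hu.1
  have hnge : (sec S i (j + 1)).Nonempty → (sec (P l a q) i j).card ≤ (sec S i (j + 1)).card := by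
    rintro ⟨x, hx⟩
    rw [hS, mem_sec] at hx
    have hai := ((mem_P.1 hx.1).1 i).2
    rw [hS, ← card_nx hj1 (Finset.Subset.refl _)]
    apply card_le_card
    intro u hu
    rw [mem_sec] at hu
    rw [mem_nx]
    exact ⟨hu, up_mem_P hu.1 (by omega)⟩
  have x1 : (sh (Function.update l i j) (Function.update a i j) (sec (Ast S A B i) i j)).card
      ≤ (sec (P l a q) i j).card := by
    rw [← hP]
    apply card_le_card
    apply sh_sub
    rw [P_sec hj1 hj2]
    exact (eA j).1
  -- case (4)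
  have x4 : (sh (Function.update l i j) (Function.update a i j) (sec (Bst S A B i) i j)).card = 0 ∨
      (sh (Function.update l i j) (Function.update a i j) (sec (Ast S A B i) i j)).card
        = (sec (P l a q) i j).card := by
    rcases Finset.eq_empty_or_nonempty (sec (Bst S A B i) i j) with h | h
    · left; rw [h, sh_empty, card_empty]
    · right
      have hne : (sec S i j).Nonempty := by
        obtain ⟨x, hx⟩ := h
        rw [sec_Bst, mem_seg] at hx
        exact ⟨x, hx.1⟩
      have hfull : sec (Ast S A B i) i j = sec S i j := by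
        rw [sec_Ast]
        apply seg_all
        obtain ⟨x, hx⟩ := h
        rw [sec_Bst, mem_seg] at hx
        omega
      rw [hfull, ← hP, hS, ← P_sec hj1 hj2, sh_P]
      rw [P_sec hj1 hj2, ← hS]; exact hne
  have x3 : (sec (Bst S A B i) i (j + 1)).card = 0 ∨
      (sec (Ast S A B i) i (j + 1)).card = (sec (P l a q) i j).card := by
    rcases Nat.eq_zero_or_pos (sec (Bst S A B i) i (j + 1)).card with h | h
    · left; exact h
    · right
      have hne : (sec S i (j + 1)).Nonempty := by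
        rw [s2] at h
        rw [← Finset.card_pos]; omega
      have := hnge hne
      rw [s1]; rw [s2] at h
      omega
  have x5 : (sec (Ast S A B i) i (j + 1)).card + (sec (Bst S A B i) i (j + 1)).card =
      (sec A i (j + 1)).card + (sec B i (j + 1)).card := by
    rw [s1, s2]; exact card_split c1 c2
  have x6 : (sec (Ast S A B i) i (j + 1)).card ≤ (sec (P l a q) i j).card := by
    rw [s1]; omega
  rcases max_choice (sh (Function.update l i j) (Function.update a i j)
      (sec (Ast S A B i) i j)).card (sec (Ast S A B i) i (j + 1)).card with e1 | e1 <;>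
  rcases max_choice (sh (Function.update l i j) (Function.update a i j)
      (sec (Bst S A B i) i j)).card (sec (Bst S A B i) i (j + 1)).card with e2 | e2 <;>
  rw [e1, e2] <;> omega

/-- weight -/
noncomputable def wt (S A : Finset (Fin n → ℕ)) : ℕ := ∑ x ∈ A, rk S x

lemma ini_sum {S A I : Finset (Fin n → ℕ)} (hA : A ⊆ S) (hI : Ini S I) (hc : I.card = A.card)
    (f : (Fin n → ℕ) → ℕ) (hf : ∀ x ∈ S, ∀ y ∈ S, lx x y → f x < f y) (hne : I ≠ A) :
    ∑ x ∈ I, f x < ∑ x ∈ A, f x := by
  classical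
  have hlt : ∀ x ∈ I \ A, ∀ y ∈ A \ I, f x < f y := by
    intro x hx y hy
    rw [mem_sdiff] at hx hy
    rcases lx_tri x y with h | h | h
    · exact hf x (hI.1 hx.1) y (hA hy.1) h
    · exact absurd (h ▸ hx.1) hy.2
    · exact absurd (hI.2 x hx.1 y (hA hy.1) h) hy.2
  have hcard : (I \ A).card = (A \ I).card := by
    have e1 := Finset.card_sdiff_add_card_inter I A
    have e2 := Finset.card_sdiff_add_card_inter A I
    rw [Finset.inter_comm] at e2
    omega
  have hne' : (I \ A).Nonempty := by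
    rw [Finset.nonempty_iff_ne_empty]
    intro h
    rw [Finset.sdiff_eq_empty_iff_subset] at h
    exact hne (Finset.eq_of_subset_of_card_le h hc.ge)
  obtain ⟨x0, hx0, hmax⟩ := Finset.exists_max_image (I \ A) f hne'
  have l1 : ∑ x ∈ I \ A, f x ≤ (I \ A).card • f x0 :=
    Finset.sum_le_card_nsmul _ _ _ (fun x hx => hmax x hx)
  have l2 : (A \ I).card • (f x0 + 1) ≤ ∑ x ∈ A \ I, f x :=
    Finset.card_nsmul_le_sum _ _ _ (fun y hy => hlt x0 hx0 y hy)
  have hpos : 0 < (I \ A).card := Finset.card_pos.2 hne'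
  have e1 : ∑ x ∈ I \ A, f x + ∑ x ∈ I ∩ A, f x = ∑ x ∈ I, f x := by
    rw [← Finset.sum_union (Finset.disjoint_sdiff_inter I A), Finset.sdiff_union_inter]
  have e2 : ∑ x ∈ A \ I, f x + ∑ x ∈ I ∩ A, f x = ∑ x ∈ A, f x := by
    rw [Finset.inter_comm, ← Finset.sum_union (Finset.disjoint_sdiff_inter A I),
      Finset.sdiff_union_inter]
  rw [← e1, ← e2, ← hcard] at *
  simp only [smul_eq_mul] at l1 l2
  nlinarith

lemma wt_sec {l a : Fin n → ℕ} {q : ℕ} {C C' : Finset (Fin n → ℕ)} (hC : C ⊆ P l a q)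
    (hC' : C' ⊆ P l a q) (i : Fin n)
    (hI : ∀ j, Ini (sec (P l a q) i j) (sec C' i j))
    (hc : ∀ j, (sec C' i j).card = (sec C i j).card) (hne : C' ≠ C) :
    wt (P l a q) C' < wt (P l a q) C := by
  classical
  have hs : ∀ {E : Finset (Fin n → ℕ)}, E ⊆ P l a q →
      wt (P l a q) E = ∑ j ∈ Icc (l i) (a i), ∑ x ∈ sec E i j, rk (P l a q) x := by
    intro E hE
    unfold wt sec
    rw [Finset.sum_fiberwise_of_maps_to]
    intro x hx
    rw [mem_Icc]; exact (mem_P.1 (hE hx)).1 i
  have hmono : ∀ j, ∀ x ∈ sec (P l a q) i j, ∀ y ∈ sec (P l a q) i j, lx x y →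
      rk (P l a q) x < rk (P l a q) y := by
    intro j x hx y _ h
    exact rk_lt (mem_sec.1 hx).1 h
  have hle : ∀ j, ∑ x ∈ sec C' i j, rk (P l a q) x ≤ ∑ x ∈ sec C i j, rk (P l a q) x := by
    intro j
    by_cases h : sec C' i j = sec C i j
    · rw [h]
    · exact (ini_sum (sec_mono hC i j) (hI j) (hc j) _ (hmono j) h).le
  rw [hs hC, hs hC']
  apply Finset.sum_lt_sum (fun j _ => hle j)
  -- a section where they differ
  by_contra hcon
  push Not at hcon
  apply hne
  have hall : ∀ j ∈ Icc (l i) (a i), sec C' i j = sec C i j := by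
    intro j hj
    by_contra h
    exact absurd (ini_sum (sec_mono hC i j) (hI j) (hc j) _ (hmono j) h) (not_lt.2 (hcon j hj))
  ext x
  constructor
  · intro hx
    have h1 := (mem_P.1 (hC' hx)).1 i
    have h2 : x ∈ sec C' i (x i) := mem_sec.2 ⟨hx, rfl⟩
    rw [hall _ (mem_Icc.2 h1)] at h2
    exact (mem_sec.1 h2).1
  · intro hx
    have h1 := (mem_P.1 (hC hx)).1 i
    have h2 : x ∈ sec C i (x i) := mem_sec.2 ⟨hx, rfl⟩
    rw [← hall _ (mem_Icc.2 h1)] at h2
    exact (mem_sec.1 h2).1

/-- if the cardinality does not grow then the weight drops or nothing changes -/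
lemma comp_wt {l a : Fin n → ℕ} {q : ℕ} {i : Fin n} {A B : Finset (Fin n → ℕ)}
    (hA : A ⊆ P l a q) (hB : B ⊆ P l a q)
    (hc : (Ast (P l a q) A B i).card = A.card) :
    (Ast (P l a q) A B i = A ∧ Bst (P l a q) A B i = B) ∨
    wt (P l a q) (Ast (P l a q) A B i) + wt (P l a q) (Bst (P l a q) A B i)
      < wt (P l a q) A + wt (P l a q) B := by
  classical
  have hsec : ∀ j, (sec (Ast (P l a q) A B i) i j).card = (sec A i j).card := by
    intro j
    by_cases hj : j ∈ Icc (l i) (a i)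
    · have h1 := hc
      rw [card_sum (Ast_sub _ A B i) i, card_sum hA i] at h1
      exact (((Finset.sum_eq_sum_iff_of_le
        (fun j _ => card_sec_A_le B hA i j)).1 h1.symm) j hj).symm
    · have : ∀ {E : Finset (Fin n → ℕ)}, E ⊆ P l a q → sec E i j = ∅ := by
        intro E hE
        rw [Finset.eq_empty_iff_forall_notMem]
        intro x hx
        rw [mem_sec] at hx
        exact hj (mem_Icc.2 (hx.2 ▸ (mem_P.1 (hE hx.1)).1 i))
      rw [this hA, this (Ast_sub _ A B i)]
  have hsecB : ∀ j, (sec (Bst (P l a q) A B i) i j).card = (sec B i j).card := by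
    intro j
    have h1 := hsec j
    have h2 := card_split (card_le_card (sec_mono hA i j)) (card_le_card (sec_mono hB i j))
    rw [sec_Ast, card_seg] at h1
    rw [sec_Bst, card_seg]
    omega
  have eA : ∀ m, Ini (sec (P l a q) i m) (sec (Ast (P l a q) A B i) i m) := by
    intro m; rw [sec_Ast]; exact seg_ini _ _
  have eB : ∀ m, Ini (sec (P l a q) i m) (sec (Bst (P l a q) A B i) i m) := by
    intro m; rw [sec_Bst]; exact seg_ini _ _
  by_cases h1 : Ast (P l a q) A B i = A
  · by_cases h2 : Bst (P l a q) A B i = B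
    · exact Or.inl ⟨h1, h2⟩
    · right
      have := wt_sec hB (Bst_sub _ A B i) i eB hsecB h2
      rw [h1]; omega
  · right
    have g1 := wt_sec hA (Ast_sub _ A B i) i eA hsec h1
    by_cases h2 : Bst (P l a q) A B i = B
    · rw [h2]; omega
    · have := wt_sec hB (Bst_sub _ A B i) i eB hsecB h2
      omega

end Pool.Agent.Q296.PO
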