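import Pool.Agent.Q296.PO.Base

/-! Complementary vectors. -/

set_option autoImplicit false

namespace Pool.Agent.Q296.PO

open Finset

variable {n : ℕ}

/-- number of elements of degree `q` -/
def ct (D : Finset (Fin n → ℕ)) (q : ℕ) : ℕ := (D.filter (fun x => deg x = q)).card

/-- down-closed families -/
def Dc (D : Finset (Fin n → ℕ)) : Prop := ∀ x ∈ D, ∀ y, y ≤ x → y ∈ D

lemma le_at {x y : Fin n → ℕ} (h : x ≤ y) (i : Fin n) : x i ≤ y i := h i

lemma mem_bx0 {m x : Fin n → ℕ} : x ∈ bx 0 m ↔ x ≤ m := by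
  rw [mem_bx, Pi.le_def]
  simp

lemma mem_P0 {m x : Fin n → ℕ} {q : ℕ} : x ∈ P 0 m q ↔ x ≤ m ∧ deg x = q := by
  unfold P
  rw [mem_filter, mem_bx0]

lemma deg_sub {m x : Fin n → ℕ} (h : x ≤ m) : deg (m - x) + deg x = deg m := by
  unfold deg
  rw [← Finset.sum_add_distrib]
  apply Finset.sum_congr rfl
  intro i _
  have := le_at h i
  rw [Pi.sub_apply]; omega

lemma sub_sub_m {m x : Fin n → ℕ} (h : x ≤ m) : m - (m - x) = x := by
  funext i
  have := le_at h i
  rw [Pi.sub_apply, Pi.sub_apply]; omega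

lemma sub_le_m (m x : Fin n → ℕ) : m - x ≤ m := by
  intro i
  exact Nat.sub_le _ _

lemma card_refl {m : Fin n → ℕ} {D : Finset (Fin n → ℕ)} (hD : D ⊆ bx 0 m) {q : ℕ}
    (hq : q ≤ deg m) [DecidableEq (Fin n → ℕ)] :
    ((P 0 m q).filter (fun x => m - x ∈ D)).card = ct D (deg m - q) := by
  unfold ct
  apply Finset.card_bij (fun x _ => m - x)
  · intro x hx
    rw [mem_filter, mem_P0] at hx
    rw [mem_filter]
    have := deg_sub hx.1.1
    exact ⟨hx.2, by omega⟩
  · intro x hx y hy h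
    rw [mem_filter, mem_P0] at hx hy
    rw [← sub_sub_m hx.1.1, h, sub_sub_m hy.1.1]
  · intro y hy
    rw [mem_filter] at hy
    have hym := mem_bx0.1 (hD hy.1)
    refine ⟨m - y, ?_, sub_sub_m hym⟩
    rw [mem_filter, mem_P0, sub_sub_m hym]
    have := deg_sub hym
    exact ⟨⟨sub_le_m m y, by omega⟩, hy.1⟩

lemma P_ne (m : Fin n → ℕ) : ∀ k q : ℕ, q + k = deg m → (P 0 m q).Nonempty := by
  intro k
  induction k with
  | zero => intro q hq; exact ⟨m, mem_P0.2 ⟨le_refl m, by omega⟩⟩
  | succ k ih =>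
    intro q hq
    obtain ⟨x, hx⟩ := ih (q + 1) (by omega)
    rw [mem_P0] at hx
    obtain ⟨i, hi⟩ : ∃ i, 0 < x i := by
      by_contra hno
      push Not at hno
      have : deg x = 0 := by
        unfold deg
        exact Finset.sum_eq_zero (fun i _ => by have := hno i; omega)
      omega
    refine ⟨dn x i, mem_P0.2 ⟨?_, ?_⟩⟩
    · intro j
      by_cases hj : j = i
      · subst hj
        rw [dn_self]
        exact (Nat.sub_le _ _).trans (le_at hx.1 j)
      · rw [dn_ne _ hj]; exact hx.1 j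
    · have := deg_dn x hi; omega

lemma le_up (u : Fin n → ℕ) (i : Fin n) : u ≤ up u i := by
  intro j
  by_cases hj : j = i
  · subst hj; rw [up_self]; exact Nat.le_succ _
  · rw [up_ne _ hj]

lemma srt_of_mono {m : Fin n → ℕ} (hm : Monotone m) : Srt 0 m := by
  intro i _ j _ hij
  have := hm hij.le
  simp only [Pi.zero_apply]
  omega

/-- the key inequality -/
lemma key {m : Fin n → ℕ} (hm : Monotone m) {D : Finset (Fin n → ℕ)} (hD : D ⊆ bx 0 m)
    (hdc : Dc D) {q : ℕ} (hq : q + 1 ≤ deg m) (hle : ct D (deg m - (q + 1)) ≤ ct D (q + 1)) :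
    (sh 0 m (seg (P 0 m (q + 1)) (ct D (q + 1) - ct D (deg m - (q + 1))))).card
      + ct D (deg m - q) ≤ ct D q := by
  classical
  have hT := main_ineq _ 0 m rfl (srt_of_mono hm) q
  obtain ⟨A, hAd⟩ : ∃ A, A = D.filter (fun x => deg x = q + 1) := ⟨_, rfl⟩
  obtain ⟨B, hBd⟩ : ∃ B, B = (P 0 m (q + 1)).filter (fun x => ¬ m - x ∈ D) := ⟨_, rfl⟩
  have hA : A ⊆ P 0 m (q + 1) := by
    intro x hx
    rw [hAd, mem_filter] at hx
    rw [mem_P0]; exact ⟨mem_bx0.1 (hD hx.1), hx.2⟩
  have hB : B ⊆ P 0 m (q + 1) := by rw [hBd]; exact Finset.filter_subset _ _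
  have hAc : A.card = ct D (q + 1) := by rw [hAd]; rfl
  have hBc : ct D (deg m - (q + 1)) + B.card = (P 0 m (q + 1)).card := by
    rw [hBd, ← card_refl hD hq, Finset.card_filter_add_card_filter_not]
  have hshA : (sh 0 m A).card ≤ ct D q := by
    apply card_le_card
    intro u hu
    have hu' := sh_sub hA hu
    rw [mem_sh] at hu
    obtain ⟨-, i, hi⟩ := hu
    rw [hAd, mem_filter] at hi
    rw [mem_filter]
    exact ⟨hdc _ hi.1 _ (le_up u i), (mem_P0.1 hu').2⟩
  have hshB : ct D (deg m - q) + (sh 0 m B).card ≤ (P 0 m q).card := by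
    rw [← card_refl hD (by omega : q ≤ deg m),
      ← Finset.card_filter_add_card_filter_not (s := P 0 m q) (fun x => m - x ∈ D)]
    apply Nat.add_le_add_left
    apply card_le_card
    intro u hu
    have hu' := sh_sub hB hu
    rw [mem_sh] at hu
    obtain ⟨-, i, hi⟩ := hu
    rw [hBd, mem_filter] at hi
    rw [mem_filter]
    refine ⟨hu', fun h => hi.2 (hdc _ h _ ?_)⟩
    intro j
    have := le_at (le_up u i) j
    exact Nat.sub_le_sub_left this _
  have h1 := hT A B hA hB
  have hne : (P 0 m (q + 1)).Nonempty := P_ne m (deg m - (q + 1)) (q + 1) (by omega)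
  rw [seg_all (P 0 m (q + 1)) (by omega), sh_P hne] at h1
  have e : A.card + B.card - (P 0 m (q + 1)).card
      = ct D (q + 1) - ct D (deg m - (q + 1)) := by omega
  rw [e] at h1
  omega

lemma nonneg {m : Fin n → ℕ} (hm : Monotone m) {D : Finset (Fin n → ℕ)} (hD : D ⊆ bx 0 m)
    (hdc : Dc D) : ∀ k q : ℕ, 2 * q ≤ deg m → deg m ≤ 2 * q + k →
      ct D (deg m - q) ≤ ct D q := by
  intro k
  induction k with
  | zero =>
    intro q h1 h2
    have : deg m - q = q := by omega
    rw [this]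
  | succ k ih =>
    intro q h1 h2
    rcases Nat.lt_or_ge (2 * q + 1) (deg m) with h3 | h3
    · have h4 : ct D (deg m - (q + 1)) ≤ ct D (q + 1) := ih (q + 1) (by omega) (by omega)
      have := key hm hD hdc (q := q) (by omega) h4
      omega
    · rcases Nat.lt_or_ge (2 * q) (deg m) with h5 | h5
      · have e1 : deg m - q = q + 1 := by omega
        have e2 : deg m - (q + 1) = q := by omega
        by_contra hcon
        rw [e1] at hcon
        have := key hm hD hdc (q := q) (by omega) (by rw [e2]; omega)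
        rw [e1] at this
        omega
      · have : deg m - q = q := by omega
        rw [this]

lemma dc_of_step {E : Finset (Fin n → ℕ)} (h : ∀ x ∈ E, ∀ i, 0 < x i → dn x i ∈ E) : Dc E := by
  have : ∀ k, ∀ x ∈ E, ∀ y, y ≤ x → deg x = deg y + k → y ∈ E := by
    intro k
    induction k with
    | zero =>
      intro x hx y hyx hd
      have : y = x := by
        unfold deg at hd
        have := (Finset.sum_eq_sum_iff_of_le (fun i _ => hyx i)).1 (by omega :
          ∑ i, y i = ∑ i, x i)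
        funext i; exact this i (mem_univ i)
      rw [this]; exact hx
    | succ k ih =>
      intro x hx y hyx hd
      obtain ⟨i, hi⟩ := deg_lt_exists (x := y) (y := x) (by omega)
      refine ih (dn x i) (h x hx i (by omega)) y (fun j => ?_) ?_
      · by_cases hj : j = i
        · subst hj; rw [dn_self]; exact Nat.le_sub_one_of_lt hi
        · rw [dn_ne _ hj]; exact hyx j
      · have := deg_dn x (i := i) (by omega)
        omega
  intro x hx y hyx
  exact this (deg x - deg y) x hx y hyx (by have := deg_le hyx; omega)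

/-- the main claim for a sorted box -/
lemma claim_sorted {m : Fin n → ℕ} (hm : Monotone m) {D : Finset (Fin n → ℕ)} (hD : D ⊆ bx 0 m)
    (hdc : Dc D) (h0 : (0 : Fin n → ℕ) ∈ D) (hmD : m ∉ D) :
    ∃ E : Finset (Fin n → ℕ), E.Nonempty ∧ Dc E ∧
      ∀ q, q ≤ (deg m - 1) / 2 → ct E q + ct D (deg m - q) = ct D q := by
  classical
  have hd1 : 1 ≤ deg m := by
    by_contra hcon
    have hz : deg m = 0 := by omega
    have : m = 0 := by
      funext i
      unfold deg at hz
      exact (Finset.sum_eq_zero_iff.1 hz) i (mem_univ i)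
    exact hmD (this ▸ h0)
  obtain ⟨M, hM⟩ : ∃ M, M = (deg m - 1) / 2 := ⟨_, rfl⟩
  obtain ⟨v, hv⟩ : ∃ v : ℕ → ℕ, v = fun q => ct D q - ct D (deg m - q) := ⟨_, rfl⟩
  have hvq : ∀ q, v q = ct D q - ct D (deg m - q) := fun q => by rw [hv]
  have hctle : ∀ q, ct D q ≤ (P 0 m q).card := by
    intro q
    apply card_le_card
    intro x hx
    rw [mem_filter] at hx
    rw [mem_P0]; exact ⟨mem_bx0.1 (hD hx.1), hx.2⟩
  have hcseg : ∀ q, (seg (P 0 m q) (v q)).card = v q := by
    intro q
    rw [card_seg]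
    have := hctle q
    have := hvq q
    omega
  have hpos : ∀ q, q ≤ M → ct D (deg m - q) ≤ ct D q := by
    intro q hq
    exact nonneg hm hD hdc (deg m) q (by omega) (by omega)
  obtain ⟨E, hE⟩ : ∃ E, E = (range (M + 1)).biUnion (fun q => seg (P 0 m q) (v q)) := ⟨_, rfl⟩
  have memE : ∀ x, x ∈ E ↔ deg x ≤ M ∧ x ∈ seg (P 0 m (deg x)) (v (deg x)) := by
    intro x
    rw [hE, mem_biUnion]
    constructor
    · rintro ⟨q, hq, hx⟩
      have h1 := (mem_P0.1 (mem_seg.1 hx).1).2
      rw [mem_range] at hq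
      rw [h1]
      exact ⟨by omega, hx⟩
    · rintro ⟨h1, h2⟩
      exact ⟨deg x, mem_range.2 (by omega), h2⟩
  have hcE : ∀ q, q ≤ M → ct E q = v q := by
    intro q hq
    rw [← hcseg q]
    unfold ct
    congr 1
    ext x
    rw [mem_filter, memE]
    constructor
    · rintro ⟨⟨h1, h2⟩, h3⟩
      rw [h3] at h2; exact h2
    · intro h1
      have h2 := (mem_P0.1 (mem_seg.1 h1).1).2
      refine ⟨⟨by omega, ?_⟩, h2⟩
      rw [h2]; exact h1
  refine ⟨E, ?_, ?_, ?_⟩
  · -- nonempty
    have e1 : ct D 0 = 1 := by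
      unfold ct
      rw [Finset.card_eq_one]
      refine ⟨0, ?_⟩
      ext x
      rw [mem_filter, mem_singleton]
      constructor
      · rintro ⟨-, h⟩
        funext i
        unfold deg at h
        exact (Finset.sum_eq_zero_iff.1 h) i (mem_univ i)
      · rintro rfl
        exact ⟨h0, by unfold deg; simp⟩
    have e2 : ct D (deg m) = 0 := by
      unfold ct
      rw [Finset.card_eq_zero, Finset.filter_eq_empty_iff]
      intro x hx hxd
      have hxm := mem_bx0.1 (hD hx)
      unfold deg at hxd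
      have := (Finset.sum_eq_sum_iff_of_le (fun i _ => hxm i)).1 hxd
      exact hmD ((funext fun i => this i (mem_univ i) : x = m) ▸ hx)
    have e3 : ct E 0 = 1 := by
      rw [hcE 0 (Nat.zero_le _), hvq, e1, Nat.sub_zero, e2]
    have e4 : (E.filter (fun x => deg x = 0)).card = 1 := e3
    obtain ⟨x, hx⟩ := Finset.card_pos.1 (by omega : 0 < (E.filter (fun x => deg x = 0)).card)
    exact ⟨x, (mem_filter.1 hx).1⟩
  · apply dc_of_step
    intro x hx i hi
    rw [memE] at hx ⊢
    have hd := deg_dn x hi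
    obtain ⟨hx1, hx2⟩ := hx
    refine ⟨by omega, ?_⟩
    obtain ⟨q, hq⟩ : ∃ q, q = deg (dn x i) := ⟨_, rfl⟩
    rw [← hq] at hd ⊢
    rw [← hd] at hx1 hx2
    -- the shadow of the segment
    have hle := hpos (q + 1) hx1
    have hk := key hm hD hdc (q := q) (by omega) hle
    rw [← hvq] at hk
    have hIni : Ini (P 0 m q) (sh 0 m (seg (P 0 m (q + 1)) (v (q + 1)))) := sh_ini (seg_ini _ _)
    have hsub := ini_sub hIni (seg_ini (P 0 m q) (v q)) (by
      rw [hcseg]
      have := hvq q
      omega)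
    apply hsub
    have hxm := mem_P.1 (mem_seg.1 hx2).1
    rw [mem_sh]
    refine ⟨fun k => ?_, i, by rw [up_dn x hi]; exact hx2⟩
    by_cases hk' : k = i
    · subst hk'
      rw [dn_self]
      have := (hxm.1 k).2
      exact ⟨Nat.zero_le _, by omega⟩
    · rw [dn_ne _ hk']; exact hxm.1 k
  · intro q hq
    rw [← hM] at hq
    rw [hcE q hq, hvq]
    have := hpos q hq
    omega

lemma deg_comp (x : Fin n → ℕ) (σ : Equiv.Perm (Fin n)) : deg (x ∘ σ) = deg x := by
  unfold deg
  exact Equiv.sum_comp σ x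

/-- the main claim for any box -/
lemma claim_box {m : Fin n → ℕ} {D : Finset (Fin n → ℕ)} (hD : D ⊆ bx 0 m)
    (hdc : Dc D) (h0 : (0 : Fin n → ℕ) ∈ D) (hmD : m ∉ D) :
    ∃ E : Finset (Fin n → ℕ), E.Nonempty ∧ Dc E ∧
      ∀ q, q ≤ (deg m - 1) / 2 → ct E q + ct D (deg m - q) = ct D q := by
  classical
  obtain ⟨σ, hσ⟩ : ∃ σ : Equiv.Perm (Fin n), Monotone (m ∘ σ) :=
    ⟨Tuple.sort m, Tuple.monotone_sort m⟩
  have hinj : Function.Injective (fun x : Fin n → ℕ => x ∘ σ) := by
    intro x y h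
    simp only at h
    funext i
    have := congrFun h (σ.symm i)
    simpa using this
  obtain ⟨D', hD'⟩ : ∃ D', D' = D.image (fun x => x ∘ σ) := ⟨_, rfl⟩
  have memD' : ∀ x : Fin n → ℕ, x ∘ σ ∈ D' ↔ x ∈ D := by
    intro x
    rw [hD', mem_image]
    constructor
    · rintro ⟨y, hy, hyx⟩
      rw [← hinj hyx]; exact hy
    · intro hx; exact ⟨x, hx, rfl⟩
  have hct : ∀ q, ct D' q = ct D q := by
    intro q
    unfold ct
    rw [hD', Finset.filter_image, Finset.card_image_of_injective _ hinj]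
    congr 1
    apply Finset.filter_congr
    intro x _
    rw [deg_comp]
  have hback : ∀ y : Fin n → ℕ, (y ∘ σ.symm) ∘ σ = y := by
    intro y; funext i; simp
  obtain ⟨E, h1, h2, h3⟩ := claim_sorted hσ (D := D')
    (by
      intro y hy
      rw [hD', mem_image] at hy
      obtain ⟨x, hx, rfl⟩ := hy
      rw [mem_bx0]
      intro i
      exact mem_bx0.1 (hD hx) (σ i))
    (by
      intro x hx y hyx
      rw [← hback y, memD']
      rw [← hback x, memD'] at hx
      apply hdc _ hx
      intro i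
      exact hyx (σ.symm i))
    (by
      have : (0 : Fin n → ℕ) = (0 : Fin n → ℕ) ∘ σ := by funext i; simp
      rw [this, memD']; exact h0)
    (by rw [memD']; exact hmD)
  refine ⟨E, h1, h2, fun q hq => ?_⟩
  have := h3 q (by rw [deg_comp]; exact hq)
  rwa [deg_comp, hct, hct] at this

/-- M-vectors -/
def IsM (h : ℕ → ℕ) : Prop :=
  ∃ (n : ℕ) (E : Finset (Fin n → ℕ)), E.Nonempty ∧ Dc E ∧ ∀ q, h q = ct E q

lemma ct_union (A B : Finset (Fin n → ℕ)) (q : ℕ) [DecidableEq (Fin n → ℕ)] :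
    ct (A ∪ B) q + ct (A ∩ B) q = ct A q + ct B q := by
  unfold ct
  rw [Finset.filter_union, Finset.filter_inter_distrib]
  exact Finset.card_union_add_card_inter _ _

lemma ct_bx (m : Fin n → ℕ) (q : ℕ) : ct (bx 0 m) q = (P 0 m q).card := rfl

lemma ct_bx_refl (m : Fin n → ℕ) {q : ℕ} (hq : q ≤ deg m) :
    ct (bx 0 m) (deg m - q) = ct (bx 0 m) q := by
  classical
  rw [← card_refl (Finset.Subset.refl _) hq, ct_bx]
  congr 1
  rw [Finset.filter_eq_self]
  intro x _
  rw [mem_bx0]; exact sub_le_m m x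

/-- the union of the boxes below the elements of `G` -/
def XG (G : Finset (Fin n → ℕ)) [DecidableEq (Fin n → ℕ)] : Finset (Fin n → ℕ) :=
  G.biUnion (fun g => bx 0 g)

lemma mem_XG {G : Finset (Fin n → ℕ)} [DecidableEq (Fin n → ℕ)] {x : Fin n → ℕ} :
    x ∈ XG G ↔ ∃ g ∈ G, x ≤ g := by
  unfold XG
  rw [mem_biUnion]
  simp only [mem_bx0]

lemma main_union {d : ℕ} (G : Finset (Fin n → ℕ)) [DecidableEq (Fin n → ℕ)]
    (hG : ∀ g ∈ G, deg g = d) :
    ∃ hs : List (ℕ → ℕ), (∀ h ∈ hs, IsM h) ∧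
      ∀ q, q ≤ (d - 1) / 2 → ct (XG G) (d - q) = ct (XG G) q + (hs.map (fun h => h q)).sum := by
  induction G using Finset.induction_on with
  | empty =>
    refine ⟨[], by simp, fun q _ => ?_⟩
    have : XG (∅ : Finset (Fin n → ℕ)) = ∅ := by unfold XG; simp
    rw [this]
    simp [ct]
  | insert m G hm ih =>
    obtain ⟨hs, h1, h2⟩ := ih (fun g hg => hG g (mem_insert_of_mem hg))
    have hmd : deg m = d := hG m (mem_insert_self m G)
    have hX : XG (insert m G) = bx 0 m ∪ XG G := by
      unfold XG; rw [Finset.biUnion_insert]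
    have hqd : ∀ q, q ≤ (d - 1) / 2 → q ≤ deg m := by
      intro q hq; omega
    rcases Finset.eq_empty_or_nonempty G with hGe | ⟨g, hg⟩
    · refine ⟨[], by simp, fun q hq => ?_⟩
      have : XG G = ∅ := by rw [hGe]; unfold XG; simp
      rw [hX, this, Finset.union_empty, ← hmd, ct_bx_refl m (hqd q hq)]
      simp
    · obtain ⟨D, hD⟩ : ∃ D, D = bx 0 m ∩ XG G := ⟨_, rfl⟩
      have hDs : D ⊆ bx 0 m := by rw [hD]; exact Finset.inter_subset_left
      have hDdc : Dc D := by
        intro x hx y hyx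
        rw [hD, mem_inter, mem_bx0, mem_XG] at hx ⊢
        obtain ⟨hx1, g, hg, hx2⟩ := hx
        exact ⟨hyx.trans hx1, g, hg, hyx.trans hx2⟩
      have h0D : (0 : Fin n → ℕ) ∈ D := by
        rw [hD, mem_inter, mem_bx0, mem_XG]
        exact ⟨fun i => Nat.zero_le _, g, hg, fun i => Nat.zero_le _⟩
      have hmD : m ∉ D := by
        rw [hD, mem_inter, mem_XG]
        rintro ⟨-, g', hg', hle⟩
        have e1 : deg m = deg g' := by rw [hmd, hG g' (mem_insert_of_mem hg')]
        unfold deg at e1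
        have := (Finset.sum_eq_sum_iff_of_le (fun i _ => hle i)).1 e1
        exact hm ((funext fun i => this i (mem_univ i) : m = g') ▸ hg')
      obtain ⟨E, hE1, hE2, hE3⟩ := claim_box hDs hDdc h0D hmD
      refine ⟨(fun q => ct E q) :: hs, ?_, fun q hq => ?_⟩
      · intro h hh
        rw [List.mem_cons] at hh
        rcases hh with rfl | hh
        · exact ⟨n, E, hE1, hE2, fun q => rfl⟩
        · exact h1 h hh
      · have e1 := hE3 q (by rw [hmd]; exact hq)
        have e2 := h2 q hq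
        have e3 := ct_bx_refl m (hqd q hq)
        have e4 := ct_union (bx 0 m) (XG G) q
        have e5 := ct_union (bx 0 m) (XG G) (d - q)
        rw [← hD] at e4 e5
        rw [hmd] at e1 e3
        rw [hX, List.map_cons, List.sum_cons]
        simp only
        omega

end Pool.Agent.Q296.PO
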