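import Pool.Agent.Q296.PO.Compress

/-! Stable pairs of families and the swap argument. -/

set_option autoImplicit false

namespace Pool.Agent.Q296.PO

open Finset

variable {n : ℕ}

/-- free coordinates -/
def fr (l a : Fin n → ℕ) : Finset (Fin n) := univ.filter (fun i => l i < a i)

lemma mem_fr {l a : Fin n → ℕ} {i : Fin n} : i ∈ fr l a ↔ l i < a i := by
  unfold fr; rw [mem_filter]; simp

/-- sections are initial -/
def SP (l a : Fin n → ℕ) (q : ℕ) (C : Finset (Fin n → ℕ)) : Prop :=
  ∀ i ∈ fr l a, ∀ x ∈ P l a q, ∀ y ∈ C, lx x y → x i = y i → x ∈ C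

/-- move a unit from `i` to `j` -/
def mv (x : Fin n → ℕ) (i j : Fin n) : Fin n → ℕ := up (dn x i) j

lemma mv_i {x : Fin n → ℕ} {i j : Fin n} (h : i ≠ j) : mv x i j i = x i - 1 := by
  unfold mv; rw [up_ne _ h, dn_self]

lemma mv_j {x : Fin n → ℕ} {i j : Fin n} (h : i ≠ j) : mv x i j j = x j + 1 := by
  unfold mv; rw [up_self, dn_ne _ (Ne.symm h)]

lemma mv_k {x : Fin n → ℕ} {i j k : Fin n} (h1 : k ≠ i) (h2 : k ≠ j) : mv x i j k = x k := by
  unfold mv; rw [up_ne _ h2, dn_ne _ h1]

lemma mv_mem {l a x : Fin n → ℕ} {q : ℕ} {i j : Fin n} (h : i ≠ j) (hx : x ∈ P l a q)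
    (hi : l i < x i) (hj : x j < a j) : mv x i j ∈ P l a q := by
  rw [mem_P] at hx ⊢
  refine ⟨fun k => ?_, ?_⟩
  · by_cases h1 : k = i
    · subst h1; rw [mv_i h]; have := hx.1 k; omega
    · by_cases h2 : k = j
      · subst h2; rw [mv_j h]; have := hx.1 k; omega
      · rw [mv_k h1 h2]; exact hx.1 k
  · unfold mv
    have := deg_dn x (i := i) (by omega)
    rw [deg_up]; omega

lemma mv_lx {x : Fin n → ℕ} {i j : Fin n} (h : i < j) (hi : 0 < x i) : lx (mv x i j) x := by
  refine (lx_iff _ _).2 ⟨i, fun k hk => ?_, ?_⟩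
  · exact mv_k (ne_of_lt hk) (ne_of_lt (hk.trans h))
  · rw [mv_i (ne_of_lt h)]; omega

lemma mv_mv {x : Fin n → ℕ} {i j : Fin n} (h : i ≠ j) (hj : 0 < x j) :
    mv (mv x j i) i j = x := by
  funext k
  by_cases h1 : k = i
  · subst h1; rw [mv_i h, mv_j (Ne.symm h)]; omega
  · by_cases h2 : k = j
    · subst h2; rw [mv_j h, mv_i (Ne.symm h)]; omega
    · rw [mv_k h1 h2, mv_k h2 h1]

lemma move_in {l a x : Fin n → ℕ} {q : ℕ} {C : Finset (Fin n → ℕ)} (hC : C ⊆ P l a q)
    (hS : SP l a q C) {i j k : Fin n} (hij : i < j) (hk : k ∈ fr l a) (hki : k ≠ i)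
    (hkj : k ≠ j) (hx : x ∈ C) (hi : l i < x i) (hj : x j < a j) : mv x i j ∈ C :=
  hS k hk _ (mv_mem (ne_of_lt hij) (hC hx) hi hj) x hx (mv_lx hij (by omega)) (mv_k hki hkj)

lemma move_out {l a x : Fin n → ℕ} {q : ℕ} {C : Finset (Fin n → ℕ)} (hC : C ⊆ P l a q)
    (hS : SP l a q C) {i j k : Fin n} (hij : i < j) (hk : k ∈ fr l a) (hki : k ≠ i)
    (hkj : k ≠ j) (hxP : x ∈ P l a q) (hx : x ∉ C) (hj : l j < x j) (hi : x i < a i) :
    mv x j i ∉ C := by
  intro h
  apply hx
  have hb := (mem_P.1 hxP).1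
  have := move_in hC hS hij hk hki hkj h
    (by rw [mv_j (ne_of_gt hij)]; have := hb i; omega)
    (by rw [mv_i (ne_of_gt hij)]; have := hb j; omega)
  rwa [mv_mv (ne_of_lt hij) (by omega)] at this

lemma third {l a : Fin n → ℕ} (h : 3 ≤ (fr l a).card) (i j : Fin n) :
    ∃ k ∈ fr l a, k ≠ i ∧ k ≠ j := by
  have h1 : 1 ≤ (((fr l a).erase i).erase j).card := by
    have e1 := Finset.pred_card_le_card_erase (s := fr l a) (a := i)
    have e2 := Finset.pred_card_le_card_erase (s := (fr l a).erase i) (a := j)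
    omega
  obtain ⟨k, hk⟩ := Finset.card_pos.1 h1
  rw [mem_erase, mem_erase] at hk
  exact ⟨k, hk.2.2, hk.2.1, hk.1⟩

/-- adding the first missing element -/
lemma sh_insert {l a x : Fin n → ℕ} {q : ℕ} {C : Finset (Fin n → ℕ)} {L : Fin n}
    (hL : ∀ k ∈ fr l a, k ≤ L) (hx : x ∈ P l a (q + 1))
    (hlow : ∀ z ∈ P l a (q + 1), lx z x → z ∈ C) (hxL : x L < a L) [DecidableEq (Fin n → ℕ)] :
    sh l a (insert x C) ⊆ insert (dn x L) (sh l a C) := by
  intro u hu
  rw [mem_sh] at hu
  rw [mem_insert, mem_sh]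
  obtain ⟨hu1, i, hi⟩ := hu
  rw [mem_insert] at hi
  rcases hi with h | h
  · by_cases hiL : i = L
    · left; rw [← h, hiL, dn_up]
    · right
      refine ⟨hu1, L, ?_⟩
      have hb := (mem_P.1 hx).1
      have hxi : x i = u i + 1 := by rw [← h, up_self]
      have hiF : i ∈ fr l a := by
        rw [mem_fr]
        have h1 := hb i
        have h2 := hu1 i
        omega
      have hlt : i < L := lt_of_le_of_ne (hL i hiF) hiL
      have huP : u ∈ P l a q := by
        rw [mem_P]
        refine ⟨hu1, ?_⟩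
        have h1 := (mem_P.1 hx).2
        rw [← h, deg_up] at h1
        omega
      have huL : u L = x L := by rw [← h, up_ne _ (Ne.symm hiL)]
      apply hlow _ (up_mem_P huP (by omega))
      refine (lx_iff _ _).2 ⟨i, fun k hk => ?_, ?_⟩
      · rw [up_ne _ (ne_of_lt (hk.trans hlt)), ← h, up_ne _ (ne_of_lt hk)]
      · rw [up_ne _ hiL, hxi]; omega
  · right; exact ⟨hu1, i, h⟩

lemma dn_in {l a y : Fin n → ℕ} {q : ℕ} {C : Finset (Fin n → ℕ)} (hC : C ⊆ P l a q)
    (hy : y ∈ C) {L : Fin n} (hyL : l L < y L) : dn y L ∈ sh l a C := by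
  rw [mem_sh]
  refine ⟨fun k => ?_, L, by rw [up_dn y (by omega)]; exact hy⟩
  have hb := (mem_P.1 (hC hy)).1 k
  by_cases hk : k = L
  · subst hk; rw [dn_self]; omega
  · rw [dn_ne _ hk]; exact hb

lemma dn_notin {l a y : Fin n → ℕ} {q : ℕ} {C : Finset (Fin n → ℕ)} {L : Fin n}
    (hL : ∀ k ∈ fr l a, k ≤ L) (hC : C ⊆ P l a q) (hyP : y ∈ P l a q) (hyL : l L < y L)
    (hlast : ∀ z ∈ C, lx z y) : dn y L ∉ sh l a C := by
  intro h
  rw [mem_sh] at h
  obtain ⟨-, k, hk⟩ := h
  by_cases hkL : k = L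
  · subst hkL
    rw [up_dn y (by omega)] at hk
    exact lx_irrefl _ (hlast _ hk)
  · have h1 := (mem_P.1 (hC hk)).1 k
    rw [up_self, dn_ne _ hkL] at h1
    have h2 := (mem_P.1 hyP).1 k
    have hkF : k ∈ fr l a := by rw [mem_fr]; omega
    have hlt : k < L := lt_of_le_of_ne (hL k hkF) hkL
    refine lx_asymm (hlast _ hk) ((lx_iff _ _).2 ⟨k, fun m hm => ?_, ?_⟩)
    · rw [up_ne _ (ne_of_lt hm), dn_ne _ (ne_of_lt (hm.trans hlt))]
    · rw [up_self, dn_ne _ hkL]; omega

lemma rk_lt_lx {S : Finset (Fin n → ℕ)} {x y : Fin n → ℕ} (hy : y ∈ S)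
    (h : rk S x < rk S y) : lx x y := by
  rcases lx_tri x y with h1 | h1 | h1
  · exact h1
  · rw [h1] at h; exact absurd h (lt_irrefl _)
  · exact absurd (rk_lt hy h1) (by omega)

lemma deg_lt {x y : Fin n → ℕ} (h : ∀ i, x i ≤ y i) {k : Fin n} (hk : x k < y k) :
    deg x < deg y := Finset.sum_lt_sum (fun i _ => h i) ⟨k, mem_univ _, hk⟩

lemma deg_le {x y : Fin n → ℕ} (h : ∀ i, x i ≤ y i) : deg x ≤ deg y :=
  Finset.sum_le_sum (fun i _ => h i)

lemma not_fr {l a x y : Fin n → ℕ} {q : ℕ} (hx : x ∈ P l a q) (hy : y ∈ P l a q) {k : Fin n}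
    (hk : k ∉ fr l a) : x k = y k := by
  rw [mem_fr] at hk
  have h1 := (mem_P.1 hx).1 k
  have h2 := (mem_P.1 hy).1 k
  omega

/-- Case I: move an element from the second family to the first -/
lemma caseI {l a : Fin n → ℕ} {q : ℕ} (h3 : 3 ≤ (fr l a).card) {A B : Finset (Fin n → ℕ)}
    (hA : A ⊆ P l a (q + 1)) (hB : B ⊆ P l a (q + 1)) (hBne : B.Nonempty)
    (hAne : A ≠ P l a (q + 1)) (hSA : SP l a (q + 1) A) (hSB : SP l a (q + 1) B)
    (hP2 : ∀ i ∈ fr l a, ∀ x ∈ P l a (q + 1), x ∉ A → ∀ y ∈ B, x i ≠ y i) :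
    ∃ A' B' : Finset (Fin n → ℕ), A' ⊆ P l a (q + 1) ∧ B' ⊆ P l a (q + 1) ∧
      A'.card = A.card + 1 ∧ B'.card + 1 = B.card ∧
      (sh l a A').card + (sh l a B').card ≤ (sh l a A).card + (sh l a B).card := by
  classical
  obtain ⟨S, hS⟩ : ∃ S, S = P l a (q + 1) := ⟨_, rfl⟩
  have hfne : (fr l a).Nonempty := Finset.card_pos.1 (by omega)
  obtain ⟨L, hLm⟩ : ∃ L, L = (fr l a).max' hfne := ⟨_, rfl⟩
  have hLF : L ∈ fr l a := by rw [hLm]; exact Finset.max'_mem _ _
  have hL : ∀ k ∈ fr l a, k ≤ L := by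
    intro k hk; rw [hLm]; exact Finset.le_max' _ _ hk
  have hne : (S \ A).Nonempty := by
    rw [Finset.nonempty_iff_ne_empty]
    intro h
    rw [Finset.sdiff_eq_empty_iff_subset] at h
    exact hAne (Finset.Subset.antisymm hA (hS ▸ h))
  obtain ⟨x, hx, hxmin⟩ := Finset.exists_min_image (S \ A) (rk S) hne
  obtain ⟨y, hy, hymax⟩ := Finset.exists_max_image B (rk S) hBne
  rw [mem_sdiff] at hx
  have hxP : x ∈ P l a (q + 1) := hS ▸ hx.1
  have hyP : y ∈ P l a (q + 1) := hB hy
  have hlow : ∀ z ∈ P l a (q + 1), lx z x → z ∈ A := by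
    intro z hz hlt
    by_contra hcon
    have h1 := hxmin z (mem_sdiff.2 ⟨hS ▸ hz, hcon⟩)
    have h2 := rk_lt (hS ▸ hz : z ∈ S) hlt
    omega
  -- `x L < a L`
  have hxL : x L < a L := by
    by_contra hcon
    have hxb := (mem_P.1 hxP).1 L
    have hxL : x L = a L := by omega
    obtain ⟨z, hz, hzmax⟩ := Finset.exists_max_image B (fun z => z L) hBne
    have hzP := hB hz
    have hzb := (mem_P.1 hzP).1
    have hzL : z L < a L := by
      have := hP2 L hLF x hxP hx.2 z hz
      have := hzb L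
      omega
    obtain ⟨i, hiL, hi⟩ : ∃ i, i ≠ L ∧ l i < z i := by
      by_contra hno
      push Not at hno
      have : deg z < deg x := by
        apply deg_lt (k := L) _ (by omega)
        intro k
        by_cases hk : k = L
        · subst hk; omega
        · exact (hno k hk).trans ((mem_P.1 hxP).1 k).1
      rw [(mem_P.1 hzP).2, (mem_P.1 hxP).2] at this
      exact lt_irrefl _ this
    have hiF : i ∈ fr l a := by rw [mem_fr]; have := hzb i; omega
    have hlt : i < L := lt_of_le_of_ne (hL i hiF) hiL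
    obtain ⟨k, hk, hki, hkL⟩ := third h3 i L
    have h1 := hzmax _ (move_in hB hSB hlt hk hki hkL hz hi hzL)
    simp only [mv_j (ne_of_lt hlt)] at h1
    omega
  -- `l L < y L`
  have hyL : l L < y L := by
    by_contra hcon
    have hyb := (mem_P.1 hyP).1 L
    have hyL : y L = l L := by omega
    obtain ⟨z, hz, hzmin⟩ := Finset.exists_min_image (S \ A) (fun z => z L) hne
    rw [mem_sdiff] at hz
    have hzP : z ∈ P l a (q + 1) := hS ▸ hz.1
    have hzb := (mem_P.1 hzP).1
    have hzL : l L < z L := by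
      have := hP2 L hLF z hzP hz.2 y hy
      have := hzb L
      omega
    obtain ⟨i, hiL, hi⟩ : ∃ i, i ≠ L ∧ z i < a i := by
      by_contra hno
      push Not at hno
      have : deg y < deg z := by
        apply deg_lt (k := L) _ (by omega)
        intro k
        by_cases hk : k = L
        · subst hk; omega
        · exact ((mem_P.1 hyP).1 k).2.trans (hno k hk)
      rw [(mem_P.1 hzP).2, (mem_P.1 hyP).2] at this
      exact lt_irrefl _ this
    have hiF : i ∈ fr l a := by rw [mem_fr]; have := hzb i; omega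
    have hlt : i < L := lt_of_le_of_ne (hL i hiF) hiL
    obtain ⟨k, hk, hki, hkL⟩ := third h3 i L
    have h0 := move_out hA hSA hlt hk hki hkL hzP hz.2 hzL hi
    have h1 := hzmin (mv z L i) (mem_sdiff.2 ⟨hS ▸ mv_mem (ne_of_gt hlt) hzP hzL hi, h0⟩)
    simp only [mv_i (ne_of_gt hlt)] at h1
    omega
  refine ⟨insert x A, B.erase y, ?_, ?_, ?_, ?_, ?_⟩
  · intro z hz
    rw [mem_insert] at hz
    rcases hz with rfl | hz
    · exact hxP
    · exact hA hz
  · exact (Finset.erase_subset _ _).trans hB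
  · exact Finset.card_insert_of_notMem hx.2
  · exact Finset.card_erase_add_one hy
  · have e1 : (sh l a (insert x A)).card ≤ (sh l a A).card + 1 :=
      (card_le_card (sh_insert hL hxP hlow hxL)).trans (Finset.card_insert_le _ _)
    have hlast : ∀ z ∈ B.erase y, lx z y := by
      intro z hz
      rw [mem_erase] at hz
      have h1 := hymax z hz.2
      apply rk_lt_lx (S := S) (hS ▸ hyP)
      rcases h1.lt_or_eq with h2 | h2
      · exact h2
      · exact absurd (rk_inj (hS ▸ hB hz.2) (hS ▸ hyP) h2) hz.1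
    have e2 : (sh l a (B.erase y)).card + 1 ≤ (sh l a B).card := by
      have h1 := dn_notin hL ((Finset.erase_subset _ _).trans hB) hyP hyL hlast
      have h2 := dn_in hB hy hyL
      rw [← Finset.card_insert_of_notMem h1]
      apply card_le_card
      intro u hu
      rw [mem_insert] at hu
      rcases hu with rfl | hu
      · exact h2
      · exact sh_mono (Finset.erase_subset _ _) hu
    omega

/-- Case II: improve a non-initial family -/
lemma caseII {l a : Fin n → ℕ} {q : ℕ} (h3 : 3 ≤ (fr l a).card) {C : Finset (Fin n → ℕ)}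
    (hC : C ⊆ P l a (q + 1)) (hSC : SP l a (q + 1) C) (hnI : ¬ Ini (P l a (q + 1)) C) :
    ∃ C' : Finset (Fin n → ℕ), C' ⊆ P l a (q + 1) ∧ C'.card = C.card ∧
      (sh l a C').card ≤ (sh l a C).card ∧ wt (P l a (q + 1)) C' < wt (P l a (q + 1)) C := by
  classical
  obtain ⟨S, hS⟩ : ∃ S, S = P l a (q + 1) := ⟨_, rfl⟩
  have hfne : (fr l a).Nonempty := Finset.card_pos.1 (by omega)
  obtain ⟨L, hLm⟩ : ∃ L, L = (fr l a).max' hfne := ⟨_, rfl⟩
  have hLF : L ∈ fr l a := by rw [hLm]; exact Finset.max'_mem _ _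
  have hL : ∀ k ∈ fr l a, k ≤ L := by
    intro k hk; rw [hLm]; exact Finset.le_max' _ _ hk
  obtain ⟨F, hFm⟩ : ∃ F, F = (fr l a).min' hfne := ⟨_, rfl⟩
  have hFF : F ∈ fr l a := by rw [hFm]; exact Finset.min'_mem _ _
  have hF : ∀ k ∈ fr l a, F ≤ k := by
    intro k hk; rw [hFm]; exact Finset.min'_le _ _ hk
  obtain ⟨M, hMF, hM1, hM2⟩ := third h3 F L
  have hFM : F < M := lt_of_le_of_ne (hF M hMF) (Ne.symm hM1)
  have hML : M < L := lt_of_le_of_ne (hL M hMF) hM2
  have hFL : F < L := hFM.trans hML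
  -- a violation of initiality
  obtain ⟨y0, hy0, z0, hz0, hlt0, hz0C⟩ : ∃ y0 ∈ C, ∃ z0 ∈ S, lx z0 y0 ∧ z0 ∉ C := by
    by_contra hno
    push Not at hno
    exact hnI ⟨hC, fun x hx z hz h => hno x hx z (hS ▸ hz) h⟩
  have hne : (S \ C).Nonempty := ⟨z0, mem_sdiff.2 ⟨hz0, hz0C⟩⟩
  obtain ⟨x, hx, hxmin⟩ := Finset.exists_min_image (S \ C) (rk S) hne
  obtain ⟨y, hy, hymax⟩ := Finset.exists_max_image C (rk S) ⟨y0, hy0⟩
  rw [mem_sdiff] at hx
  have hxP : x ∈ P l a (q + 1) := hS ▸ hx.1
  have hyP : y ∈ P l a (q + 1) := hC hy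
  have hrk : rk S x < rk S y := by
    have h1 := hxmin z0 (mem_sdiff.2 ⟨hz0, hz0C⟩)
    have h2 := rk_lt hz0 hlt0
    have h3 := hymax y0 hy0
    omega
  have hxy : lx x y := rk_lt_lx (hS ▸ hyP) hrk
  have hlow : ∀ z ∈ P l a (q + 1), lx z x → z ∈ C := by
    intro z hz hlt
    by_contra hcon
    have h1 := hxmin z (mem_sdiff.2 ⟨hS ▸ hz, hcon⟩)
    have h2 := rk_lt (hS ▸ hz : z ∈ S) hlt
    omega
  have hxyne : ∀ i ∈ fr l a, x i ≠ y i := fun i hi h => hx.2 (hSC i hi x hxP y hy hxy h)
  have hxF : x F < y F := by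
    obtain ⟨k, hk1, hk2⟩ := (lx_iff _ _).1 hxy
    have hkF : k ∈ fr l a := by
      rw [mem_fr]
      have h1 := (mem_P.1 hxP).1 k
      have h2 := (mem_P.1 hyP).1 k
      omega
    rcases (hF k hkF).lt_or_eq with h | h
    · exact absurd (hk1 F h) (hxyne F hFF)
    · rw [h]; exact hk2
  -- comparison through the first free coordinate
  have hcmp : ∀ z w : Fin n → ℕ, z ∈ P l a (q + 1) → w ∈ P l a (q + 1) → z F < w F → lx z w := by
    intro z w hz hw h
    refine (lx_iff _ _).2 ⟨F, fun k hk => ?_, h⟩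
    apply not_fr hz hw
    intro hkF
    exact absurd (hF k hkF) (not_le.2 hk)
  -- `x L < a L`
  have hxL : x L < a L := by
    by_contra hcon
    have hxb := (mem_P.1 hxP).1
    have hxL : x L = a L := by have := hxb L; omega
    have hZne : (C.filter (fun z => x F < z F)).Nonempty := ⟨y, mem_filter.2 ⟨hy, hxF⟩⟩
    obtain ⟨z, hz, hzmax⟩ := Finset.exists_max_image (C.filter (fun z => x F < z F))
      (fun z => z L) hZne
    rw [mem_filter] at hz
    have hzP := hC hz.1
    have hzb := (mem_P.1 hzP).1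
    have hlt := hcmp x z hxP hzP hz.2
    have hzne : ∀ i ∈ fr l a, x i ≠ z i := fun i hi h => hx.2 (hSC i hi x hxP z hz.1 hlt h)
    have hzL : z L < a L := by
      have h1 := hzne L hLF
      have h2 := hzb L
      omega
    have hmid : ∀ i ∈ fr l a, i ≠ F → i ≠ L → z i = l i := by
      intro i hi hiF hiL
      by_contra hne'
      have h1 := hzb i
      have hi1 : i < L := lt_of_le_of_ne (hL i hi) hiL
      have h2 := move_in hC hSC hi1 hFF (Ne.symm hiF) (ne_of_lt hFL) hz.1 (by omega) hzL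
      have h3 := hzmax (mv z i L) (mem_filter.2 ⟨h2, by
        rw [mv_k (Ne.symm hiF) (ne_of_lt hFL)]; exact hz.2⟩)
      simp only [mv_j (ne_of_lt hi1)] at h3
      omega
    have hzF : z F = x F + 1 := by
      by_contra hne'
      have h1 := hxb F
      have h2 := move_in hC hSC hFL hMF hM1 hM2 hz.1 (by omega) hzL
      have h3 := hzmax (mv z F L) (mem_filter.2 ⟨h2, by
        rw [mv_i (ne_of_lt hFL)]; omega⟩)
      simp only [mv_j (ne_of_lt hFL)] at h3
      omega
    have hle : deg (up (up z M) L) ≤ deg (up x F) := by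
      apply deg_le
      intro k
      by_cases hkF : k = F
      · subst hkF
        rw [up_ne _ (ne_of_lt hFL), up_ne _ (ne_of_lt hFM), up_self]; omega
      · rw [up_ne x hkF]
        by_cases hkL : k = L
        · subst hkL
          rw [up_self, up_ne _ (ne_of_gt hML)]; omega
        · rw [up_ne _ hkL]
          by_cases hkM : k = M
          · subst hkM
            rw [up_self]
            have h1 := hzne k hMF
            have h2 := hmid k hMF hM1 hM2
            have h3 := hxb k
            omega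
          · rw [up_ne _ hkM]
            by_cases hkf : k ∈ fr l a
            · rw [hmid k hkf hkF hkL]; exact (hxb k).1
            · exact (not_fr hzP hxP hkf).le
    rw [deg_up, deg_up, deg_up, (mem_P.1 hzP).2, (mem_P.1 hxP).2] at hle
    omega
  -- `l L < y L`
  have hyL : l L < y L := by
    by_contra hcon
    have hyb := (mem_P.1 hyP).1
    have hyL : y L = l L := by have := hyb L; omega
    have hZne : ((S \ C).filter (fun z => z F < y F)).Nonempty :=
      ⟨x, mem_filter.2 ⟨mem_sdiff.2 hx, hxF⟩⟩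
    obtain ⟨z, hz, hzmin⟩ := Finset.exists_min_image ((S \ C).filter (fun z => z F < y F))
      (fun z => z L) hZne
    rw [mem_filter, mem_sdiff] at hz
    have hzP : z ∈ P l a (q + 1) := hS ▸ hz.1.1
    have hzb := (mem_P.1 hzP).1
    have hlt := hcmp z y hzP hyP hz.2
    have hzne : ∀ i ∈ fr l a, z i ≠ y i := fun i hi h => hz.1.2 (hSC i hi z hzP y hy hlt h)
    have hzL : l L < z L := by
      have h1 := hzne L hLF
      have h2 := hzb L
      omega
    have hmid : ∀ i ∈ fr l a, i ≠ F → i ≠ L → z i = a i := by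
      intro i hi hiF hiL
      by_contra hne'
      have h1 := hzb i
      have hi1 : i < L := lt_of_le_of_ne (hL i hi) hiL
      have h2 := move_out hC hSC hi1 hFF (Ne.symm hiF) (ne_of_lt hFL) hzP hz.1.2 hzL (by omega)
      have h3 := hzmin (mv z L i) (mem_filter.2 ⟨mem_sdiff.2
        ⟨hS ▸ mv_mem (ne_of_gt hi1) hzP hzL (by omega), h2⟩, by
        rw [mv_k (ne_of_lt hFL) (Ne.symm hiF)]; exact hz.2⟩)
      simp only [mv_i (ne_of_gt hi1)] at h3
      omega
    have hzF : z F + 1 = y F := by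
      by_contra hne'
      have h1 := hyb F
      have h2 := move_out hC hSC hFL hMF hM1 hM2 hzP hz.1.2 hzL (by omega)
      have h3 := hzmin (mv z L F) (mem_filter.2 ⟨mem_sdiff.2
        ⟨hS ▸ mv_mem (ne_of_gt hFL) hzP hzL (by omega), h2⟩, by
        rw [mv_j (ne_of_gt hFL)]; omega⟩)
      simp only [mv_i (ne_of_gt hFL)] at h3
      omega
    have hle : deg (up (up y M) L) ≤ deg (up z F) := by
      apply deg_le
      intro k
      by_cases hkF : k = F
      · subst hkF
        rw [up_ne _ (ne_of_lt hFL), up_ne _ (ne_of_lt hFM), up_self]; omega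
      · rw [up_ne z hkF]
        by_cases hkL : k = L
        · subst hkL
          rw [up_self, up_ne _ (ne_of_gt hML)]; omega
        · rw [up_ne _ hkL]
          by_cases hkM : k = M
          · subst hkM
            rw [up_self]
            have h1 := hzne k hMF
            have h2 := hmid k hMF hM1 hM2
            have h3 := hyb k
            omega
          · rw [up_ne _ hkM]
            by_cases hkf : k ∈ fr l a
            · rw [hmid k hkf hkF hkL]; exact (hyb k).2
            · exact (not_fr hyP hzP hkf).le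
    rw [deg_up, deg_up, deg_up, (mem_P.1 hzP).2, (mem_P.1 hyP).2] at hle
    omega
  -- the new family
  have hyx : y ≠ x := by
    rintro rfl; exact lx_irrefl _ hxy
  have hCsub : (insert x C).erase y ⊆ P l a (q + 1) := by
    intro z hz
    rw [mem_erase, mem_insert] at hz
    rcases hz.2 with rfl | h
    · exact hxP
    · exact hC h
  have hlast : ∀ z ∈ (insert x C).erase y, lx z y := by
    intro z hz
    rw [mem_erase, mem_insert] at hz
    rcases hz.2 with rfl | h
    · exact hxy
    · have h1 := hymax z h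
      apply rk_lt_lx (S := S) (hS ▸ hyP)
      rcases h1.lt_or_eq with h2 | h2
      · exact h2
      · exact absurd (rk_inj (hS ▸ hC h) (hS ▸ hyP) h2) hz.1
  refine ⟨(insert x C).erase y, hCsub, ?_, ?_, ?_⟩
  · have h1 := Finset.card_erase_add_one (s := insert x C) (a := y) (mem_insert_of_mem hy)
    rw [Finset.card_insert_of_notMem hx.2] at h1
    omega
  · have h1 := dn_notin hL hCsub hyP hyL hlast
    have h2 := dn_in hC hy hyL
    have h3 : sh l a ((insert x C).erase y) ⊆ insert (dn x L) (sh l a C) :=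
      (sh_mono (Finset.erase_subset _ _)).trans (sh_insert hL hxP hlow hxL)
    have h4 : (insert (dn y L) (sh l a ((insert x C).erase y))).card
        ≤ (insert (dn x L) (sh l a C)).card := by
      apply card_le_card
      intro u hu
      rw [mem_insert] at hu
      rcases hu with rfl | hu
      · exact mem_insert_of_mem h2
      · exact h3 hu
    rw [Finset.card_insert_of_notMem h1] at h4
    have := Finset.card_insert_le (dn x L) (sh l a C)
    omega
  · rw [← hS]
    unfold wt
    have h1 := Finset.add_sum_erase (insert x C) (rk S) (mem_insert_of_mem hy)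
    rw [Finset.sum_insert hx.2] at h1
    omega

/-- the induction step -/
lemma step {l a : Fin n → ℕ} {q : ℕ} (h3 : 3 ≤ (fr l a).card)
    (H : ∀ i ∈ fr l a, ∀ j, l i ≤ j → j ≤ a i →
      Thm (Function.update l i j) (Function.update a i j) q) : Thm l a q := by
  classical
  obtain ⟨S, hS⟩ : ∃ S, S = P l a (q + 1) := ⟨_, rfl⟩
  obtain ⟨T, hT⟩ : ∃ T : ℕ → ℕ, T = fun K =>
    (sh l a (seg S K)).card + (sh l a (seg S (K - S.card))).card := ⟨_, rfl⟩
  suffices hmain : ∀ m w : ℕ, ∀ A B : Finset (Fin n → ℕ), A ⊆ S → B ⊆ S →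
      S.card - A.card = m → wt S A + wt S B = w →
      T (A.card + B.card) ≤ (sh l a A).card + (sh l a B).card by
    intro A B hA hB
    rw [← hS] at hA hB ⊢
    have := hmain _ _ A B hA hB rfl rfl
    rw [hT] at this
    exact this
  intro m
  induction m using Nat.strong_induction_on with
  | _ m ihm =>
  intro w
  induction w using Nat.strong_induction_on with
  | _ w ihw =>
  intro A B hA hB hm hw
  have hA' : A ⊆ P l a (q + 1) := hS ▸ hA
  have hB' : B ⊆ P l a (q + 1) := hS ▸ hB
  by_cases hst : ∃ i ∈ fr l a, ¬ (Ast S A B i = A ∧ Bst S A B i = B)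
  · obtain ⟨i, hi, hne⟩ := hst
    have e1 := comp_sh (H i hi) hA' hB'
    have e2 := card_AB hA' hB' i
    have e3 := card_A_le B hA' i
    rw [← hS] at e1 e2 e3
    have e4 : (Ast S A B i).card ≤ S.card := card_le_card (Ast_sub S A B i)
    rcases e3.lt_or_eq with h | h
    · have := ihm (S.card - (Ast S A B i).card) (by omega) _ _ _ (Ast_sub S A B i)
        (Bst_sub S A B i) rfl rfl
      rw [e2] at this
      omega
    · have e5 := comp_wt (i := i) hA' hB' (by rw [← hS]; exact h.symm)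
      rw [← hS] at e5
      rcases e5 with e5 | e5
      · exact absurd e5 hne
      · have := ihw _ (hw ▸ e5) _ _ (Ast_sub S A B i) (Bst_sub S A B i) (by rw [← h]; exact hm) rfl
        rw [e2] at this
        omega
  · push Not at hst
    have hSA : SP l a (q + 1) A := by
      intro i hi x hx y hy hxy hxi
      rw [← (hst i hi).1, mem_Ast] at hy ⊢
      rw [hxi]
      refine ⟨hS ▸ hx, lt_of_lt_of_le (Nat.lt_succ_of_lt (rk_lt (mem_sec.2 ⟨hS ▸ hx, hxi⟩) hxy)) ?_⟩
      exact hy.2
    have hSB : SP l a (q + 1) B := by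
      intro i hi x hx y hy hxy hxi
      rw [← (hst i hi).2, mem_Bst] at hy ⊢
      rw [hxi]
      have h1 := rk_lt (S := sec S i (y i)) (mem_sec.2 ⟨hS ▸ hx, hxi⟩) hxy
      refine ⟨hS ▸ hx, ?_⟩
      have h2 := hy.2
      omega
    have hP2 : ∀ i ∈ fr l a, ∀ x ∈ P l a (q + 1), x ∉ A → ∀ y ∈ B, x i ≠ y i := by
      intro i hi x hx hxA y hy hxi
      apply hxA
      rw [← (hst i hi).1, mem_Ast]
      rw [← (hst i hi).2, mem_Bst] at hy
      rw [hxi]
      have h1 := rk_lt_card (S := sec S i (y i)) (mem_sec.2 ⟨hS ▸ hx, hxi⟩)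
      refine ⟨hS ▸ hx, ?_⟩
      have h2 := hy.2
      omega
    by_cases hBe : B = ∅
    · subst hBe
      by_cases hI : Ini S A
      · have h1 : A = seg S A.card := ini_eq_seg hI (by
          rw [min_eq_left (card_le_card hA)])
        rw [hT]
        simp only [card_empty, add_zero, sh_empty]
        have h2 : A.card - S.card = 0 := by have := card_le_card hA; omega
        rw [h2, seg_zero, sh_empty, card_empty, ← h1]
        omega
      · obtain ⟨C', hC1, hC2, hC3, hC4⟩ := caseII h3 hA' hSA (hS ▸ hI)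
        rw [← hS] at hC1 hC4
        have := ihw (wt S C' + wt S ∅) (by rw [← hw]; omega) C' ∅ hC1 (Finset.empty_subset _)
          (by rw [hC2]; exact hm) rfl
        rw [hC2] at this
        omega
    · by_cases hAf : A = S
      · subst hAf
        by_cases hI : Ini A B
        · have h1 : B = seg A B.card := ini_eq_seg hI (by
            rw [min_eq_left (card_le_card hB)])
          rw [hT]
          simp only
          rw [seg_all A (Nat.le_add_right _ _), Nat.add_sub_cancel_left, ← h1]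
        · obtain ⟨C', hC1, hC2, hC3, hC4⟩ := caseII h3 hB' hSB (hS ▸ hI)
          rw [← hS] at hC1 hC4
          have := ihw (wt A A + wt A C') (by rw [← hw]; omega) A C' hA hC1 hm rfl
          rw [hC2] at this
          omega
      · obtain ⟨A', B', h1, h2, h4, h5, h6⟩ := caseI h3 hA' hB'
          (Finset.nonempty_iff_ne_empty.2 hBe) (hS ▸ hAf) hSA hSB hP2
        rw [← hS] at h1 h2
        have hle := card_le_card h1
        have := ihm (S.card - A'.card) (by omega) _ A' B' h1 h2 rfl rfl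
        have e : A'.card + B'.card = A.card + B.card := by omega
        rw [e] at this
        omega

end Pool.Agent.Q296.PO
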